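import Pool.Agent.NH11.SW.Cnt

set_option autoImplicit false

/-! # The test functions against the pair counting function -/

open MeasureTheory Filter Topology Real Set

namespace Pool.Agent.NH11.SW

open Pool.Agent.Y744
open Pool.Agent.Y750.OM (bl rh PO NO NO_nonneg pair_ord main_eq rh_of_bl bl_eq)
open Pool.Agent.NH11.PV (mz mz_nonneg Zt Zb XX XX_pos N_lim Nbad Nbad_eq bad mem_Zt mem_Zb)
open H370 (NN mult Zf)

variable {κ : ℝ} {K : ℝ → ℝ}

/-- the expected value -/
noncomputable def II (K : ℝ → ℝ) (s : ℝ) : ℝ := ∫ y, AG y * ww K s y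

/-- the dyadic blocks -/
theorem block (hK : TK κ K) (hκ : 0 ≤ κ) {s : ℝ} (hs : κ + |s| ≤ 1 / 2) :
    ∃ C θ : ℝ, 0 ≤ C ∧ 0 < θ ∧ ∀ ε : ℝ, 0 < ε → ∃ U0 : ℝ, 10 ≤ U0 ∧ ∀ U : ℝ, U0 ≤ U →
      |(∫ y, PF (Zb U (2 * U)) (Real.log U) y * ww K s y) - NN riemannZeta U (2 * U) * II K s| ≤
        (C * (NO U (2 * U) / NN riemannZeta U (2 * U)) ^ θ + ε) * NN riemannZeta U (2 * U) := by
  have hpi := Real.pi_pos
  obtain ⟨C, θ, hC, hθ, h⟩ := pair_ord (κ0 := 1 / 2) (by norm_num) (by norm_num)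
  obtain ⟨M, hM⟩ := rr_lip hK s
  obtain ⟨A, hA⟩ := bl_decay hK hκ s
  obtain ⟨R, hR⟩ := (rr_cs hK hκ s).exists_bound_of_continuous (rr_cont hK s)
  have hR0 : 0 ≤ R := (norm_nonneg _).trans (hR 0)
  have hsupp : ∀ α, 1 / 2 < |α| → rr K s α = 0 := fun α hα => rr_supp hK hκ (by linarith)
  refine ⟨C * R * (1 / 2) ^ 3 / (4 * π), θ, by positivity, hθ, fun ε hε => ?_⟩
  obtain ⟨T0, hT0, h⟩ := h (1 / 2) (by norm_num) le_rfl (rr K s) M hM hsupp _ (rh_of_bl hA) R
    (fun α => by simpa [Real.norm_eq_abs] using hR α) (4 * π * ε) (by positivity)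
  refine ⟨T0, hT0, fun U hU => ?_⟩
  have h1 := h U hU
  rw [← main_eq (rr_cont hK s) hA (fun x hx => hsupp x (by linarith)), bl_pred hK hκ] at h1
  have e1 : PO (rh (rr K s)) U (2 * U) (Real.log U) =
      4 * π * ∫ y, PF (Zb U (2 * U)) (Real.log U) y * ww K s y := by
    rw [← sum_bl hK hκ]
    simp_rw [bl_eq]
    rfl
  rw [e1] at h1
  have e2 : 4 * π * (∫ y, PF (Zb U (2 * U)) (Real.log U) y * ww K s y) -
      NN riemannZeta U (2 * U) * (4 * π * ∫ y, AG y * ww K s y) =
      4 * π * ((∫ y, PF (Zb U (2 * U)) (Real.log U) y * ww K s y) -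
        NN riemannZeta U (2 * U) * II K s) := by
    unfold II
    ring
  rw [e2, abs_mul, abs_of_pos (by positivity : 0 < 4 * π)] at h1
  have e3 : (C * R * (1 / 2) ^ 3 / (4 * π) * (NO U (2 * U) / NN riemannZeta U (2 * U)) ^ θ + ε) *
      NN riemannZeta U (2 * U) = ((C * R * (1 / 2) ^ 3 * (NO U (2 * U) /
        NN riemannZeta U (2 * U)) ^ θ + 4 * π * ε) * NN riemannZeta U (2 * U)) / (4 * π) := by
    field_simp
  rw [e3, le_div_iff₀ (by positivity), mul_comm]
  exact h1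

lemma log_ratio {c : ℝ} (hc : 0 < c) :
    Tendsto (fun T => Real.log (c * T) / Real.log T) atTop (𝓝 1) := by
  have h1 : Tendsto (fun T : ℝ => Real.log c / Real.log T + 1) atTop (𝓝 (0 + 1)) :=
    (Real.tendsto_log_atTop.const_div_atTop _).add_const 1
  rw [zero_add] at h1
  refine h1.congr' ?_
  filter_upwards [eventually_gt_atTop 1] with T hT
  have hl := Real.log_pos hT
  rw [Real.log_mul hc.ne' (by linarith)]
  field_simp

lemma XX_ratio {c : ℝ} (hc : 0 < c) : Tendsto (fun T => XX (c * T) / XX T) atTop (𝓝 c) := by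
  have h1 := (log_ratio hc).const_mul c
  rw [mul_one] at h1
  refine h1.congr' ?_
  filter_upwards [eventually_gt_atTop 1] with T hT
  have hl := Real.log_pos hT
  have hpi := Real.pi_pos
  unfold XX
  field_simp

lemma N_dil {c : ℝ} (hc : 0 < c) :
    Tendsto (fun T => (NN riemannZeta 0 (c * T) : ℝ) / XX T) atTop (𝓝 c) := by
  have h1 : Tendsto (fun T : ℝ => c * T) atTop atTop := tendsto_id.const_mul_atTop hc
  have h2 := (N_lim.comp h1).mul (XX_ratio hc)
  rw [one_mul] at h2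
  refine h2.congr' ?_
  filter_upwards [h1.eventually_gt_atTop 1, eventually_gt_atTop 1] with T hT hT1
  have := XX_pos hT
  have := XX_pos hT1
  show (NN riemannZeta 0 (c * T) : ℝ) / XX (c * T) * (XX (c * T) / XX T) = _
  field_simp

lemma N_blk {c : ℝ} (hc : 0 < c) :
    Tendsto (fun T => (NN riemannZeta (c * T) (2 * (c * T)) : ℝ) / XX T) atTop (𝓝 c) := by
  have h1 := (N_dil (c := 2 * c) (by positivity)).sub (N_dil hc)
  have e : 2 * c - c = c := by ring
  rw [e] at h1
  refine h1.congr' ?_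
  have h2 : Tendsto (fun T : ℝ => c * T) atTop atTop := tendsto_id.const_mul_atTop hc
  filter_upwards [h2.eventually_ge_atTop 1] with T hT
  have h3 := Pool.Agent.W54.TCF.NN_zero_add (A := c * T) (X := 2 * (c * T)) hT (by linarith)
  rw [← sub_div, mul_assoc 2 c T, h3]
  push_cast
  ring

lemma NO_le {c T : ℝ} (hc : 0 < c) (hc1 : 2 * c ≤ 1) (hT : 1 ≤ c * T) :
    NO (c * T) (2 * (c * T)) ≤ Nbad T := by
  classical
  rw [Nbad_eq]
  unfold NO
  have hT0 : 0 < T := by
    by_contra hcon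
    push Not at hcon
    nlinarith
  refine Finset.sum_le_sum_of_subset_of_nonneg (fun z hz => ?_) fun z _ _ => mz_nonneg z
  rw [Finset.mem_filter] at hz ⊢
  obtain ⟨h1, h2⟩ := hz
  have h3 : z ∈ Zb (c * T) (2 * (c * T)) := h1
  rw [mem_Zb hT] at h3
  refine ⟨?_, Or.inl h2⟩
  rw [mem_Zt]
  obtain ⟨a1, a2, a3, a4, a5⟩ := h3
  refine ⟨a1, a2, by linarith, ?_, a5⟩
  nlinarith

lemma ratio_lim {l : Filter ℝ} (hl : l ≤ atTop)
    (hbad : Tendsto (fun T => (Nbad T : ℝ) / XX T) l (𝓝 0)) {c : ℝ} (hc : 0 < c)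
    (hc1 : 2 * c ≤ 1) : Tendsto (fun T => NO (c * T) (2 * (c * T)) /
      (NN riemannZeta (c * T) (2 * (c * T)) : ℝ)) l (𝓝 0) := by
  have h2 : Tendsto (fun T : ℝ => c * T) atTop atTop := tendsto_id.const_mul_atTop hc
  have h3 : Tendsto (fun T => NO (c * T) (2 * (c * T)) / XX T) l (𝓝 0) := by
    refine squeeze_zero' ?_ ?_ hbad
    · filter_upwards [hl (eventually_gt_atTop 1)] with T hT
      exact div_nonneg (NO_nonneg _ _) (XX_pos hT).le
    · filter_upwards [hl (eventually_gt_atTop 1), hl (h2.eventually_ge_atTop 1)] with T hT hT2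
      exact div_le_div_of_nonneg_right (NO_le hc hc1 hT2) (XX_pos hT).le
  have h4 := h3.div ((N_blk hc).mono_left hl) hc.ne'
  rw [zero_div] at h4
  refine h4.congr' ?_
  filter_upwards [hl (eventually_gt_atTop 1)] with T hT
  have := XX_pos hT
  show NO (c * T) (2 * (c * T)) / XX T / ((NN riemannZeta (c * T) (2 * (c * T)) : ℝ) / XX T) = _
  field_simp

lemma tendsto_of_bound {l : Filter ℝ} {f : ℝ → ℝ} {a : ℝ}
    (h : ∀ ε : ℝ, 0 < ε → ∀ᶠ T in l, |f T - a| ≤ ε) : Tendsto f l (𝓝 a) := by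
  rw [Metric.tendsto_nhds]
  intro ε hε
  filter_upwards [h (ε / 2) (by positivity)] with T hT
  rw [Real.dist_eq]
  linarith

lemma blk_lim (hK : TK κ K) (hκ : 0 ≤ κ) {s : ℝ} (hs : κ + |s| ≤ 1 / 2) {l : Filter ℝ}
    (hl : l ≤ atTop) (hbad : Tendsto (fun T => (Nbad T : ℝ) / XX T) l (𝓝 0)) {c : ℝ} (hc : 0 < c)
    (hc1 : 2 * c ≤ 1) : Tendsto (fun T => (∫ y, PF (Zb (c * T) (2 * (c * T)))
      (Real.log (c * T)) y * ww K s y) / XX T) l (𝓝 (c * II K s)) := by
  obtain ⟨C, θ, hC, hθ, h⟩ := block hK hκ hs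
  have h2 : Tendsto (fun T : ℝ => c * T) atTop atTop := tendsto_id.const_mul_atTop hc
  have hN := (N_blk hc).mono_left hl
  have h3 : Tendsto (fun T => (NN riemannZeta (c * T) (2 * (c * T)) : ℝ) / XX T * II K s) l
      (𝓝 (c * II K s)) := hN.mul_const _
  have h4 : Tendsto (fun T => (∫ y, PF (Zb (c * T) (2 * (c * T)))
      (Real.log (c * T)) y * ww K s y) / XX T -
        (NN riemannZeta (c * T) (2 * (c * T)) : ℝ) / XX T * II K s) l (𝓝 0) := by
    refine tendsto_of_bound fun ε hε => ?_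
    obtain ⟨U0, hU0, hb⟩ := h (ε / (2 * (c + 1))) (by positivity)
    have h5 : Tendsto (fun T => (C * (NO (c * T) (2 * (c * T)) /
        (NN riemannZeta (c * T) (2 * (c * T)) : ℝ)) ^ θ + ε / (2 * (c + 1))) *
        ((NN riemannZeta (c * T) (2 * (c * T)) : ℝ) / XX T)) l
        (𝓝 ((C * 0 ^ θ + ε / (2 * (c + 1))) * c)) :=
      ((((ratio_lim hl hbad hc hc1).rpow_const (Or.inr hθ.le)).const_mul C).add_const _).mul hN
    rw [Real.zero_rpow hθ.ne', mul_zero, zero_add] at h5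
    have h6 : ε / (2 * (c + 1)) * c < ε := by
      rw [div_mul_eq_mul_div, div_lt_iff₀ (by positivity)]
      nlinarith
    filter_upwards [(tendsto_order.1 h5).2 _ h6, hl (h2.eventually_ge_atTop U0),
      hl (eventually_gt_atTop 1)] with T g1 g2 g3
    have g4 := hb (c * T) g2
    have hX := XX_pos g3
    rw [sub_zero, div_mul_eq_mul_div, ← sub_div, abs_div, abs_of_pos hX]
    refine le_trans ?_ g1.le
    rw [← mul_div_assoc]
    exact div_le_div_of_nonneg_right g4 hX.le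
  have h5 := h4.add h3
  rw [zero_add] at h5
  refine h5.congr fun T => ?_
  ring

/-- integrability with the linear weight -/
lemma lin_ww_int (hK : TK κ K) (s : ℝ) : Integrable fun y => (1 + |y|) * |ww K s y| := by
  obtain ⟨D, hD0, hD⟩ := ww_decay hK
  refine (integrable_inv_one_add_sq.const_mul (2 * D)).mono'
    (by have := ww_cont hK s; fun_prop : Continuous fun y => (1 + |y|) * |ww K s y|).aestronglyMeasurable
    (Eventually.of_forall fun y => ?_)
  have h1 : 1 + |y| ≤ 2 * (1 + y ^ 2) := by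
    have := sq_abs y
    nlinarith [sq_nonneg (|y| - 1), abs_nonneg y]
  rw [Real.norm_eq_abs, abs_of_nonneg (by positivity)]
  calc (1 + |y|) * |ww K s y| ≤ (2 * (1 + y ^ 2)) * (D / (1 + y ^ 2) ^ 2) := by
        gcongr
        exact hD s y
    _ = 2 * D * (1 + y ^ 2)⁻¹ := by field_simp

/-- dilations of the weight -/
lemma dil_err (hK : TK κ K) (s : ℝ) {f : ℝ → ℝ} (hf : Tendsto f atTop (𝓝 1)) :
    Tendsto (fun T => ∫ z, (1 + |z|) * |(f T)⁻¹ * ww K s (z / f T) - ww K s z|) atTop (𝓝 0) := by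
  obtain ⟨D, hD0, hD⟩ := ww_decay hK
  have hwc := ww_cont hK s
  have h1 : Tendsto (fun T => ∫ z, (1 + |z|) * |(f T)⁻¹ * ww K s (z / f T) - ww K s z|) atTop
      (𝓝 (∫ z : ℝ, (0 : ℝ))) := by
    apply tendsto_integral_filter_of_dominated_convergence
      (fun z => 66 * D * (1 + z ^ 2)⁻¹)
    · refine Eventually.of_forall fun T => ?_
      exact (by fun_prop : Continuous fun z =>
        (1 + |z|) * |(f T)⁻¹ * ww K s (z / f T) - ww K s z|).aestronglyMeasurable
    · filter_upwards [(tendsto_order.1 hf).1 (1 / 2) (by norm_num),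
        (tendsto_order.1 hf).2 2 (by norm_num)] with T hT1 hT2
      refine Eventually.of_forall fun z => ?_
      have hf0 : 0 < f T := by linarith
      have hinv : (f T)⁻¹ ≤ 2 := by
        rw [inv_le_comm₀ hf0 (by norm_num)]
        linarith
      have hz2 : (1 + z ^ 2) / 4 ≤ 1 + (z / f T) ^ 2 := by
        rw [div_pow]
        have h3 : z ^ 2 / 4 ≤ z ^ 2 / f T ^ 2 := by
          apply div_le_div_of_nonneg_left (sq_nonneg z) (by positivity)
          nlinarith
        linarith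
      have h4 : |ww K s (z / f T)| ≤ 16 * D / (1 + z ^ 2) ^ 2 := by
        refine (hD s _).trans ?_
        rw [div_le_div_iff₀ (by positivity) (by positivity)]
        have h5 : ((1 + z ^ 2) / 4) ^ 2 ≤ (1 + (z / f T) ^ 2) ^ 2 :=
          pow_le_pow_left₀ (by positivity) hz2 2
        nlinarith
      have h6 : |(f T)⁻¹ * ww K s (z / f T) - ww K s z| ≤ 33 * D / (1 + z ^ 2) ^ 2 := by
        refine (abs_sub _ _).trans ?_
        rw [abs_mul, abs_of_pos (inv_pos.2 hf0)]
        have h7 : (f T)⁻¹ * |ww K s (z / f T)| ≤ 2 * (16 * D / (1 + z ^ 2) ^ 2) :=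
          mul_le_mul hinv h4 (abs_nonneg _) (by norm_num)
        have h8 := hD s z
        have h9 : 2 * (16 * D / (1 + z ^ 2) ^ 2) + D / (1 + z ^ 2) ^ 2 =
            33 * D / (1 + z ^ 2) ^ 2 := by ring
        linarith
      have h1 : 1 + |z| ≤ 2 * (1 + z ^ 2) := by
        have := sq_abs z
        nlinarith [sq_nonneg (|z| - 1), abs_nonneg z]
      rw [Real.norm_eq_abs, abs_of_nonneg (by positivity)]
      calc (1 + |z|) * |(f T)⁻¹ * ww K s (z / f T) - ww K s z|
          ≤ (2 * (1 + z ^ 2)) * (33 * D / (1 + z ^ 2) ^ 2) := by gcongr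
        _ = 66 * D * (1 + z ^ 2)⁻¹ := by field_simp; ring
    · exact integrable_inv_one_add_sq.const_mul _
    · refine Eventually.of_forall fun z => ?_
      have h2 : Tendsto (fun T => z / f T) atTop (𝓝 (z / 1)) :=
        tendsto_const_nhds.div hf one_ne_zero
      rw [div_one] at h2
      have h3 : Tendsto (fun T => ww K s (z / f T)) atTop (𝓝 (ww K s z)) :=
        (hwc.tendsto z).comp h2
      have h4 := ((hf.inv₀ one_ne_zero).mul h3).sub_const (ww K s z)
      rw [inv_one, one_mul, sub_self] at h4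
      have h5 := h4.abs.const_mul (1 + |z|)
      rw [abs_zero, mul_zero] at h5
      exact h5
  simpa using h1

end Pool.Agent.NH11.SW
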