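import Pool.Agent.Y744.PCR.Core
import Pool.Agent.Y750.OM.Conv1

set_option autoImplicit false

/-! # The test functions -/

open MeasureTheory Filter Topology Real Set

namespace Pool.Agent.NH11.SW

open Pool.Agent.Y744
open Pool.Agent.Y750.OM (bl)
open scoped ContDiff FourierTransform

/-- the odd function on the Fourier side -/
noncomputable def qq (K : ℝ → ℝ) (s α : ℝ) : ℝ := K (α - s) - K (α + s)

/-- the quotient by `α` -/
noncomputable def rr (K : ℝ → ℝ) (s α : ℝ) : ℝ := ∫ v in (0 : ℝ)..1, deriv (qq K s) (α * v)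

/-- the weight -/
noncomputable def ww (K : ℝ → ℝ) (s y : ℝ) : ℝ := ct K y * Real.sin (2 * π * s * y)

variable {κ : ℝ} {K : ℝ → ℝ}

lemma qq_smooth (hK : TK κ K) (s : ℝ) : ContDiff ℝ ∞ (qq K s) := by
  unfold qq
  exact (hK.smooth.comp (contDiff_id.sub contDiff_const)).sub
    (hK.smooth.comp (contDiff_id.add contDiff_const))

lemma qq_zero (hK : TK κ K) (s : ℝ) : qq K s 0 = 0 := by
  unfold qq
  rw [zero_sub, zero_add, hK.even, sub_self]

lemma qq_supp (hK : TK κ K) {s : ℝ} {α : ℝ} (hα : κ + |s| < |α|) : qq K s α = 0 := by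
  unfold qq
  have h1 : κ < |α - s| := by
    have := abs_sub_abs_le_abs_sub α s
    linarith
  have h2 : κ < |α + s| := by
    have := abs_sub_abs_le_abs_sub α (-s)
    rw [abs_neg, sub_neg_eq_add] at this
    linarith
  rw [hK.supp _ h1, hK.supp _ h2, sub_self]

lemma qq_cs (hK : TK κ K) (s : ℝ) : HasCompactSupport (qq K s) := by
  apply HasCompactSupport.intro (isCompact_Icc (a := -(κ + |s|)) (b := κ + |s|))
  intro x hx
  apply qq_supp hK
  by_contra hcon
  push Not at hcon
  exact hx (abs_le.1 hcon)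

lemma mul_rr (hK : TK κ K) (s α : ℝ) : α * rr K s α = qq K s α := by
  have hd : Differentiable ℝ (qq K s) := (qq_smooth hK s).differentiable (by simp)
  have hc : Continuous (deriv (qq K s)) := ((qq_smooth hK s).continuous_deriv (by simp))
  have h1 : ∫ v in (0 : ℝ)..1, α * deriv (qq K s) (α * v) = qq K s (α * 1) - qq K s (α * 0) := by
    apply intervalIntegral.integral_eq_sub_of_hasDerivAt (f := fun v => qq K s (α * v))
    · intro v _
      have h2 := (hd (α * v)).hasDerivAt
      have h3 : HasDerivAt (fun v : ℝ => α * v) α v := by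
        simpa using (hasDerivAt_id v).const_mul α
      have h4 := h2.comp v h3
      rw [mul_comm] at h4
      exact h4
    · exact (by fun_prop : Continuous fun v : ℝ => α * deriv (qq K s) (α * v)).intervalIntegrable
        _ _
  rw [mul_one, mul_zero, qq_zero hK, sub_zero] at h1
  rw [← h1, rr, intervalIntegral.integral_const_mul]

lemma rr_lip (hK : TK κ K) (s : ℝ) : ∃ M : ℝ, ∀ x y, |rr K s x - rr K s y| ≤ M * |x - y| := by
  have hc : Continuous (deriv (qq K s)) := ((qq_smooth hK s).continuous_deriv (by simp))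
  have hcs : HasCompactSupport (deriv (qq K s)) := (qq_cs hK s).deriv
  have hsm : ContDiff ℝ 1 (deriv (qq K s)) := by
    exact_mod_cast contDiff_infty.1 (TK.deriv_smooth (qq_smooth hK s)) 1
  obtain ⟨M, hM⟩ := hcs.deriv.exists_bound_of_continuous (hsm.continuous_deriv (by simp))
  refine ⟨M, fun x y => ?_⟩
  have hlip : ∀ a b, |deriv (qq K s) a - deriv (qq K s) b| ≤ M * |a - b| := by
    intro a b
    have := Convex.norm_image_sub_le_of_norm_deriv_le (f := deriv (qq K s)) (C := M) (s := Set.univ)
      (x := b) (y := a) (fun z _ => (hsm.differentiable (by simp)) z) (fun z _ => hM z) convex_univ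
      (Set.mem_univ _) (Set.mem_univ _)
    simpa [Real.norm_eq_abs] using this
  have hM0 : 0 ≤ M := (norm_nonneg _).trans (hM 0)
  unfold rr
  rw [← intervalIntegral.integral_sub
    ((by fun_prop : Continuous fun v : ℝ => deriv (qq K s) (x * v)).intervalIntegrable _ _)
    ((by fun_prop : Continuous fun v : ℝ => deriv (qq K s) (y * v)).intervalIntegrable _ _)]
  have h1 : ‖∫ v in (0 : ℝ)..1, (deriv (qq K s) (x * v) - deriv (qq K s) (y * v))‖ ≤
      (M * |x - y|) * |1 - 0| := by
    apply intervalIntegral.norm_integral_le_of_norm_le_const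
    intro v hv
    rw [Set.uIoc_of_le (by norm_num)] at hv
    rw [Real.norm_eq_abs]
    refine (hlip _ _).trans ?_
    rw [← sub_mul, abs_mul, abs_of_pos hv.1, ← mul_assoc]
    exact mul_le_of_le_one_right (mul_nonneg hM0 (abs_nonneg _)) hv.2
  rw [sub_zero, abs_one, mul_one, Real.norm_eq_abs] at h1
  exact h1

lemma rr_supp (hK : TK κ K) (hκ : 0 ≤ κ) {s : ℝ} {α : ℝ} (hα : κ + |s| < |α|) : rr K s α = 0 := by
  have h1 := mul_rr hK s α
  rw [qq_supp hK hα] at h1
  have h2 : α ≠ 0 := by
    intro h
    rw [h, abs_zero] at hα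
    have := abs_nonneg s
    linarith
  exact (mul_eq_zero.1 h1).resolve_left h2

lemma rr_cont (hK : TK κ K) (s : ℝ) : Continuous (rr K s) := by
  obtain ⟨M, hM⟩ := rr_lip hK s
  have : LipschitzWith (Real.toNNReal M) (rr K s) := by
    apply LipschitzWith.of_dist_le_mul
    intro x y
    rw [Real.dist_eq, Real.dist_eq]
    refine (hM x y).trans ?_
    exact mul_le_mul_of_nonneg_right (Real.le_coe_toNNReal M) (abs_nonneg _)
  exact this.continuous

lemma rr_cs (hK : TK κ K) (hκ : 0 ≤ κ) (s : ℝ) : HasCompactSupport (rr K s) := by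
  apply HasCompactSupport.intro (isCompact_Icc (a := -(κ + |s|)) (b := κ + |s|))
  intro x hx
  apply rr_supp hK hκ
  by_contra hcon
  push Not at hcon
  exact hx (abs_le.1 hcon)

lemma rr_int (hK : TK κ K) (hκ : 0 ≤ κ) (s : ℝ) : Integrable (rr K s) :=
  (rr_cont hK s).integrable_of_hasCompactSupport (rr_cs hK hκ s)

/-- the derivative of the transform -/
lemma bl_deriv (hK : TK κ K) (hκ : 0 ≤ κ) (s x : ℝ) :
    HasDerivAt (bl (rr K s)) (-(4 * π) * ww K s x) x := by
  have hri := rr_int hK hκ s
  have hqi : Integrable (qq K s) :=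
    (qq_smooth hK s).continuous.integrable_of_hasCompactSupport (qq_cs hK s)
  have hrc := rr_cont hK s
  have h1 := hasDerivAt_integral_of_dominated_loc_of_deriv_le (μ := volume) (x₀ := x)
    (s := Set.univ) (F := fun y α => rr K s α * Real.cos (2 * π * α * y))
    (F' := fun y α => rr K s α * (-(Real.sin (2 * π * α * y)) * (2 * π * α)))
    (bound := fun α => 2 * π * |qq K s α|) univ_mem
    (Eventually.of_forall fun y => (by fun_prop :
      Continuous fun α => rr K s α * Real.cos (2 * π * α * y)).aestronglyMeasurable)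
    (hri.mul_bdd (c := 1) (by fun_prop) (Eventually.of_forall fun α => by
      rw [Real.norm_eq_abs]; exact Real.abs_cos_le_one _))
    ((by fun_prop : Continuous fun α =>
      rr K s α * (-(Real.sin (2 * π * α * x)) * (2 * π * α))).aestronglyMeasurable)
    (Eventually.of_forall fun α y _ => by
      have e : rr K s α * (-(Real.sin (2 * π * α * y)) * (2 * π * α)) =
          -(2 * π) * qq K s α * Real.sin (2 * π * α * y) := by
        rw [← mul_rr hK]; ring
      rw [e, Real.norm_eq_abs, abs_mul, abs_mul, abs_neg,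
        abs_of_pos (by have := Real.pi_pos; positivity : 0 < 2 * π)]
      exact mul_le_of_le_one_right (by have := Real.pi_pos; positivity) (Real.abs_sin_le_one _))
    (hqi.abs.const_mul _)
    (Eventually.of_forall fun α y _ => by
      have h2 : HasDerivAt (fun y : ℝ => 2 * π * α * y) (2 * π * α) y := by
        simpa using (hasDerivAt_id y).const_mul (2 * π * α)
      exact ((Real.hasDerivAt_cos _).comp y h2).const_mul (rr K s α))
  have h2 := h1.2
  have e1 : ∫ α, rr K s α * (-(Real.sin (2 * π * α * x)) * (2 * π * α)) =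
      -(4 * π) * ww K s x := by
    have e : ∀ α, rr K s α * (-(Real.sin (2 * π * α * x)) * (2 * π * α)) =
        -(2 * π) * (K (α - s) * Real.sin (2 * π * α * x) - K (α + s) * Real.sin (2 * π * α * x)) := by
      intro α
      have := mul_rr hK s α
      unfold qq at this
      linear_combination (-(Real.sin (2 * π * α * x)) * (2 * π)) * this
    simp_rw [e]
    rw [integral_const_mul]
    have hKi := hK.integrable
    have i1 : Integrable fun α => K (α - s) * Real.sin (2 * π * α * x) :=
      (hKi.comp_sub_right s).mul_bdd (c := 1) (by fun_prop) (Eventually.of_forall fun α => by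
        rw [Real.norm_eq_abs]; exact Real.abs_sin_le_one _)
    have i2 : Integrable fun α => K (α + s) * Real.sin (2 * π * α * x) :=
      (hKi.comp_add_right s).mul_bdd (c := 1) (by fun_prop) (Eventually.of_forall fun α => by
        rw [Real.norm_eq_abs]; exact Real.abs_sin_le_one _)
    rw [integral_sub i1 i2]
    have g1 : ∫ α, K (α - s) * Real.sin (2 * π * α * x) =
        ∫ β, K β * Real.sin (2 * π * (β + s) * x) := by
      rw [← integral_add_right_eq_self (fun α => K (α - s) * Real.sin (2 * π * α * x)) s]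
      refine integral_congr_ae (Eventually.of_forall fun β => ?_)
      show K (β + s - s) * Real.sin (2 * π * (β + s) * x) = _
      rw [add_sub_cancel_right]
    have g2 : ∫ α, K (α + s) * Real.sin (2 * π * α * x) =
        ∫ β, K β * Real.sin (2 * π * (β - s) * x) := by
      rw [← integral_sub_right_eq_self (fun α => K (α + s) * Real.sin (2 * π * α * x)) s]
      refine integral_congr_ae (Eventually.of_forall fun β => ?_)
      show K (β - s + s) * Real.sin (2 * π * (β - s) * x) = _
      rw [sub_add_cancel]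
    have i3 : Integrable fun β => K β * Real.sin (2 * π * (β + s) * x) :=
      hKi.mul_bdd (c := 1) (by fun_prop) (Eventually.of_forall fun α => by
        rw [Real.norm_eq_abs]; exact Real.abs_sin_le_one _)
    have i4 : Integrable fun β => K β * Real.sin (2 * π * (β - s) * x) :=
      hKi.mul_bdd (c := 1) (by fun_prop) (Eventually.of_forall fun α => by
        rw [Real.norm_eq_abs]; exact Real.abs_sin_le_one _)
    rw [g1, g2, ← integral_sub i3 i4]
    have e3 : ∀ β, K β * Real.sin (2 * π * (β + s) * x) - K β * Real.sin (2 * π * (β - s) * x) =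
        (K β * Real.cos (2 * π * x * β)) * (2 * Real.sin (2 * π * s * x)) := by
      intro β
      have a1 : 2 * π * (β + s) * x = 2 * π * x * β + 2 * π * s * x := by ring
      have a2 : 2 * π * (β - s) * x = 2 * π * x * β - 2 * π * s * x := by ring
      rw [a1, a2, Real.sin_add, Real.sin_sub]
      ring
    simp_rw [e3]
    rw [integral_mul_const]
    unfold ww ct
    ring
  rw [e1] at h2
  exact h2

lemma bl_even (r : ℝ → ℝ) (x : ℝ) : bl r (-x) = bl r x := by
  unfold bl
  refine integral_congr_ae (Eventually.of_forall fun α => ?_)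
  show r α * Real.cos (2 * π * α * -x) = r α * Real.cos (2 * π * α * x)
  rw [mul_neg, Real.cos_neg]

lemma bl_lim {r : ℝ → ℝ} (hr : Integrable r) : Tendsto (bl r) atTop (𝓝 0) := by
  have h1 := Real.tendsto_integral_exp_smul_cocompact (fun α => (r α : ℂ))
  have h2 : Tendsto (fun w : ℝ => (∫ v : ℝ, 𝐞 (-(v * w)) • (r v : ℂ)).re) (cocompact ℝ)
      (𝓝 (0 : ℂ).re) := (Complex.continuous_re.tendsto _).comp h1
  rw [Complex.zero_re] at h2
  have h3 : ∀ w : ℝ, (∫ v : ℝ, 𝐞 (-(v * w)) • (r v : ℂ)).re = bl r w := by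
    intro w
    have hi : Integrable fun v : ℝ => 𝐞 (-(v * w)) • (r v : ℂ) := by
      have h4 := hr.ofReal (𝕜 := ℂ)
      refine (h4.bdd_mul (c := 1) (f := fun v : ℝ => ((𝐞 (-(v * w)) : Circle) : ℂ)) ?_
        (Eventually.of_forall fun v => by simp)).congr (Eventually.of_forall fun v => ?_)
      · exact (by fun_prop : Continuous fun v : ℝ => ((𝐞 (-(v * w)) : Circle) : ℂ)).aestronglyMeasurable
      · show ((𝐞 (-(v * w)) : Circle) : ℂ) * (r v : ℂ) = 𝐞 (-(v * w)) • (r v : ℂ)
        rw [Circle.smul_def, smul_eq_mul]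
    have h5 := integral_re hi
    have h6 : (∫ v : ℝ, 𝐞 (-(v * w)) • (r v : ℂ)).re =
        ∫ v : ℝ, (𝐞 (-(v * w)) • (r v : ℂ)).re := h5.symm
    rw [h6]
    unfold bl
    refine integral_congr_ae (Eventually.of_forall fun v => ?_)
    show (𝐞 (-(v * w)) • (r v : ℂ)).re = r v * Real.cos (2 * π * v * w)
    rw [Circle.smul_def, smul_eq_mul, Real.fourierChar_apply, Complex.re_mul_ofReal]
    have e : ((2 * π * -(v * w) : ℝ) : ℂ) * Complex.I = ((-(2 * π * v * w) : ℝ) : ℂ) * Complex.I := by
      push_cast; ring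
    rw [e, Complex.exp_ofReal_mul_I_re, Real.cos_neg]
    ring
  have h4 : Tendsto (fun w : ℝ => bl r w) (cocompact ℝ) (𝓝 0) := by
    simpa only [h3] using h2
  exact h4.mono_left atTop_le_cocompact

lemma ww_cont (hK : TK κ K) (s : ℝ) : Continuous (ww K s) := by
  unfold ww
  have := hK.ct_cont
  fun_prop

lemma ww_decay (hK : TK κ K) : ∃ D, 0 ≤ D ∧ ∀ s y, |ww K s y| ≤ D / (1 + y ^ 2) ^ 2 := by
  obtain ⟨D, hD0, hD⟩ := hK.decay 2
  refine ⟨D, hD0, fun s y => ?_⟩
  unfold ww
  rw [abs_mul]
  exact (mul_le_of_le_one_right (abs_nonneg _) (Real.abs_sin_le_one _)).trans (hD y)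

lemma ww_int (hK : TK κ K) (s : ℝ) : Integrable (ww K s) := by
  obtain ⟨D, hD0, hD⟩ := ww_decay hK
  refine (integrable_inv_one_add_sq.const_mul D).mono' (ww_cont hK s).aestronglyMeasurable
    (Eventually.of_forall fun y => ?_)
  rw [Real.norm_eq_abs]
  refine (hD s y).trans ?_
  rw [← div_eq_mul_inv]
  apply div_le_div_of_nonneg_left hD0 (by positivity)
  nlinarith [sq_nonneg y, sq_nonneg (y ^ 2)]

/-- the transform is the tail integral of the weight -/
lemma bl_tail (hK : TK κ K) (hκ : 0 ≤ κ) (s x : ℝ) :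
    bl (rr K s) x = 4 * π * ∫ y in Ioi |x|, ww K s y := by
  have h0 : bl (rr K s) x = bl (rr K s) |x| := by
    rcases abs_choice x with h | h
    · rw [h]
    · rw [h, bl_even]
  rw [h0]
  have h1 := integral_Ioi_of_hasDerivAt_of_tendsto (a := |x|) (f := bl (rr K s))
    (f' := fun y => -(4 * π) * ww K s y)
    (bl_deriv hK hκ s |x|).continuousAt.continuousWithinAt
    (fun y _ => bl_deriv hK hκ s y) ((ww_int hK s).const_mul _).integrableOn
    (bl_lim (rr_int hK hκ s))
  rw [integral_const_mul] at h1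
  linarith

lemma bl_decay (hK : TK κ K) (hκ : 0 ≤ κ) (s : ℝ) :
    ∃ A : ℝ, ∀ u, |bl (rr K s) u| * (1 + u ^ 2) ≤ A := by
  obtain ⟨D, hD0, hD⟩ := ww_decay hK
  refine ⟨4 * π * (D * π), fun u => ?_⟩
  have hpi := Real.pi_pos
  rw [bl_tail hK hκ, abs_mul, abs_of_pos (by positivity : 0 < 4 * π), mul_assoc]
  apply mul_le_mul_of_nonneg_left _ (by positivity)
  have hi : Integrable fun y : ℝ => D / (1 + u ^ 2) * (1 + y ^ 2)⁻¹ :=
    integrable_inv_one_add_sq.const_mul _
  have h1 : |∫ y in Ioi |u|, ww K s y| ≤ ∫ y in Ioi |u|, D / (1 + u ^ 2) * (1 + y ^ 2)⁻¹ := by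
    rw [← Real.norm_eq_abs]
    apply norm_integral_le_of_norm_le hi.integrableOn
    rw [ae_restrict_iff' measurableSet_Ioi]
    refine Eventually.of_forall fun y hy => ?_
    rw [Real.norm_eq_abs]
    refine (hD s y).trans ?_
    have hy2 : u ^ 2 ≤ y ^ 2 := by
      rw [← sq_abs u]
      exact pow_le_pow_left₀ (abs_nonneg _) (le_of_lt hy) 2
    rw [div_mul_eq_mul_div, ← div_eq_mul_inv, div_div, sq (1 + y ^ 2)]
    apply div_le_div_of_nonneg_left hD0 (by positivity)
    gcongr
  have h2 : ∫ y in Ioi |u|, D / (1 + u ^ 2) * (1 + y ^ 2)⁻¹ ≤ D / (1 + u ^ 2) * π := by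
    rw [← integral_univ_inv_one_add_sq, ← integral_const_mul]
    apply setIntegral_le_integral hi
    exact Eventually.of_forall fun y => by positivity
  have h3 : |∫ y in Ioi |u|, ww K s y| * (1 + u ^ 2) ≤ (D / (1 + u ^ 2) * π) * (1 + u ^ 2) :=
    mul_le_mul_of_nonneg_right (h1.trans h2) (by positivity)
  refine h3.trans (le_of_eq ?_)
  field_simp

/-- the expected value -/
lemma bl_pred (hK : TK κ K) (hκ : 0 ≤ κ) (s : ℝ) :
    bl (rr K s) 0 + ∫ u : ℝ, bl (rr K s) u * (1 - Real.sinc (Real.pi * u) ^ 2) =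
      4 * π * ∫ y, AG y * ww K s y := by
  have hpi := Real.pi_pos
  obtain ⟨A, hA⟩ := bl_decay hK hκ s
  have hA0 : 0 ≤ A := by
    have := hA 0
    exact (mul_nonneg (abs_nonneg _) (by positivity)).trans this
  set f := bl (rr K s) with hf
  have hfd : ∀ x, HasDerivAt f (-(4 * π) * ww K s x) x := fun x => bl_deriv hK hκ s x
  have hfc : Continuous f := continuous_iff_continuousAt.2 fun x => (hfd x).continuousAt
  have hfb : ∀ u, |f u| ≤ A * (1 + u ^ 2)⁻¹ := by
    intro u
    rw [← div_eq_mul_inv, le_div_iff₀ (by positivity)]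
    exact hA u
  have hfi : Integrable fun u => f u * gd u := by
    refine (integrable_inv_one_add_sq.const_mul A).mono'
      (hfc.mul gd_cont).aestronglyMeasurable (Eventually.of_forall fun u => ?_)
    rw [Real.norm_eq_abs, abs_mul, abs_of_nonneg (gd_nonneg u)]
    exact (mul_le_of_le_one_right (abs_nonneg _) (gd_le u)).trans (hfb u)
  -- the even integral
  have e1 : ∫ u : ℝ, f u * gd u = 2 * ∫ u in Ioi (0 : ℝ), f u * gd u := by
    rw [← integral_comp_abs (f := fun u => f u * gd u)]
    refine integral_congr_ae (Eventually.of_forall fun u => ?_)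
    show f u * gd u = f |u| * gd |u|
    rcases abs_choice u with h | h
    · rw [h]
    · rw [h]
      have g1 : f (-u) = f u := bl_even _ _
      have g2 : gd (-u) = gd u := by
        unfold gd
        rw [mul_neg, Real.sinc_neg]
      rw [g1, g2]
  -- the weight against the primitive
  obtain ⟨D, hD0, hD⟩ := ww_decay hK
  have hgi : Integrable fun y => AG y * ww K s y := by
    refine (integrable_inv_one_add_sq.const_mul (2 * D)).mono'
      (AG_meas.mul (ww_cont hK s).measurable).aestronglyMeasurable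
      (Eventually.of_forall fun y => ?_)
    rw [Real.norm_eq_abs, abs_mul]
    have h2 : 0 < 1 + y ^ 2 := by positivity
    calc |AG y| * |ww K s y| ≤ (2 * (1 + y ^ 2)) * (D / (1 + y ^ 2) ^ 2) := by
          gcongr
          · exact AG_bound y
          · exact hD s y
      _ = 2 * D * (1 + y ^ 2)⁻¹ := by field_simp
  have hAG : ∀ y, 0 < y → AG y = 1 + 2 * gp y := fun y hy => by
    unfold AG
    rw [if_neg (not_lt.2 hy.le)]
  have hgi2 : IntegrableOn (fun y => (1 + 2 * gp y) * ww K s y) (Ioi 0) := by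
    refine hgi.integrableOn.congr_fun (fun y hy => ?_) measurableSet_Ioi
    show AG y * ww K s y = (1 + 2 * gp y) * ww K s y
    rw [hAG y hy]
  have hgi3 : IntegrableOn (fun y => gp y * ww K s y) (Ioi 0) := by
    have := (hgi2.sub (ww_int hK s).integrableOn).const_mul (1 / 2)
    refine IntegrableOn.congr_fun this (fun y _ => ?_) measurableSet_Ioi
    show 1 / 2 * ((1 + 2 * gp y) * ww K s y - ww K s y) = gp y * ww K s y
    ring
  have e2 : ∫ u in Ioi (0 : ℝ), f u * gd u =
      0 - 0 - ∫ u in Ioi (0 : ℝ), (-(4 * π) * ww K s u) * gp u := by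
    apply integral_Ioi_mul_deriv_eq_deriv_mul (u := f) (v := gp)
      (fun x _ => hfd x) (fun x _ => gp_deriv x)
    · exact hfi.integrableOn
    · have := hgi3.const_mul (-(4 * π))
      refine IntegrableOn.congr_fun this (fun y _ => ?_) measurableSet_Ioi
      show -(4 * π) * (gp y * ww K s y) = (-(4 * π) * ww K s y) * gp y
      ring
    · have h1 : Tendsto (f * gp) (𝓝 0) (𝓝 ((f * gp) 0)) :=
        (hfc.mul gp_cont).tendsto 0
      have h2 : (f * gp) 0 = 0 := by
        show f 0 * gp 0 = 0
        rw [gp_zero, mul_zero]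
      rw [h2] at h1
      exact h1.mono_left nhdsWithin_le_nhds
    · have h1 : Tendsto (fun x : ℝ => A * x⁻¹) atTop (𝓝 (A * 0)) :=
        tendsto_inv_atTop_zero.const_mul A
      rw [mul_zero] at h1
      refine squeeze_zero_norm' ?_ h1
      filter_upwards [eventually_gt_atTop (0 : ℝ)] with x hx
      show ‖f x * gp x‖ ≤ A * x⁻¹
      rw [Real.norm_eq_abs, abs_mul, abs_of_nonneg (gp_nonneg hx.le)]
      calc |f x| * gp x ≤ (A * (1 + x ^ 2)⁻¹) * x := by
            gcongr
            · exact gp_nonneg hx.le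
            · exact hfb x
            · exact gp_le hx.le
        _ ≤ A * x⁻¹ := by
            rw [mul_assoc]
            apply mul_le_mul_of_nonneg_left _ hA0
            rw [inv_mul_eq_div, inv_eq_one_div, div_le_div_iff₀ (by positivity) hx]
            nlinarith
  have e3 : f 0 = 4 * π * ∫ y in Ioi (0 : ℝ), ww K s y := by
    have := bl_tail hK hκ s 0
    rw [abs_zero] at this
    exact this
  have e4 : ∫ y, AG y * ww K s y = ∫ y in Ioi (0 : ℝ), (1 + 2 * gp y) * ww K s y := by
    rw [← integral_indicator measurableSet_Ioi]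
    have h0 : ∀ᵐ y : ℝ, y ≠ 0 := by
      rw [ae_iff]
      simp
    refine integral_congr_ae ?_
    filter_upwards [h0] with y hy
    rcases lt_or_gt_of_ne hy with h | h
    · rw [Set.indicator_of_notMem (by simpa using h.le)]
      unfold AG
      rw [if_pos h, zero_mul]
    · rw [Set.indicator_of_mem (by simpa using h), hAG y h]
  have e5 : ∫ y in Ioi (0 : ℝ), (1 + 2 * gp y) * ww K s y =
      (∫ y in Ioi (0 : ℝ), ww K s y) + 2 * ∫ y in Ioi (0 : ℝ), gp y * ww K s y := by
    rw [← integral_const_mul, ← integral_add (ww_int hK s).integrableOn (hgi3.const_mul 2)]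
    refine integral_congr_ae (Eventually.of_forall fun y => ?_)
    show (1 + 2 * gp y) * ww K s y = ww K s y + 2 * (gp y * ww K s y)
    ring
  have e6 : ∫ u in Ioi (0 : ℝ), (-(4 * π) * ww K s u) * gp u =
      -(4 * π) * ∫ y in Ioi (0 : ℝ), gp y * ww K s y := by
    rw [← integral_const_mul]
    refine integral_congr_ae (Eventually.of_forall fun y => ?_)
    show (-(4 * π) * ww K s y) * gp y = -(4 * π) * (gp y * ww K s y)
    ring
  have e7 : ∫ u : ℝ, f u * (1 - Real.sinc (Real.pi * u) ^ 2) = ∫ u : ℝ, f u * gd u := rfl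
  rw [e7, e1, e2, e3, e4, e5, e6]
  ring

end Pool.Agent.NH11.SW
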