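import Pool.Agent.NH11.PV.Equiv
import Pool.Agent.NH11.SW.Tst

set_option autoImplicit false

/-! # The pair counting function -/

open MeasureTheory Filter Topology Real Set

namespace Pool.Agent.NH11.SW

open Pool.Agent.Y744
open Pool.Agent.Y750.OM (bl)
open Pool.Agent.NH11.PV (mz mz_nonneg Zt Zb XX XX_pos VV tent tent_nonneg cell cell_nonneg
  cell_shift mem_Zt mem_Zb)
open H370 (NN)

/-- the number of pairs with normalised difference at most `y` -/
noncomputable def PF (S : Finset ℂ) (Λ y : ℝ) : ℝ :=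
  ∑ s ∈ S, ∑ s' ∈ S, mz s * mz s' * (if |(s.im - s'.im) * Λ / (2 * π)| ≤ y then 1 else 0)

lemma term_nonneg (s s' : ℂ) (p : Prop) [Decidable p] :
    0 ≤ mz s * mz s' * (if p then (1 : ℝ) else 0) := by
  refine mul_nonneg (mul_nonneg (mz_nonneg s) (mz_nonneg s')) ?_
  split_ifs <;> norm_num

lemma PF_nonneg (S : Finset ℂ) (Λ y : ℝ) : 0 ≤ PF S Λ y :=
  Finset.sum_nonneg fun _ _ => Finset.sum_nonneg fun _ _ => term_nonneg _ _ _

lemma PF_neg (S : Finset ℂ) (Λ : ℝ) {y : ℝ} (hy : y < 0) : PF S Λ y = 0 := by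
  unfold PF
  refine Finset.sum_eq_zero fun s _ => Finset.sum_eq_zero fun s' _ => ?_
  rw [if_neg, mul_zero]
  have := abs_nonneg ((s.im - s'.im) * Λ / (2 * π))
  linarith

lemma ind_le {p q : Prop} [Decidable p] [Decidable q] (h : p → q) (s s' : ℂ) :
    mz s * mz s' * (if p then (1 : ℝ) else 0) ≤ mz s * mz s' * (if q then (1 : ℝ) else 0) := by
  refine mul_le_mul_of_nonneg_left ?_ (mul_nonneg (mz_nonneg s) (mz_nonneg s'))
  by_cases hp : p
  · rw [if_pos hp, if_pos (h hp)]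
  · rw [if_neg hp]
    split_ifs <;> norm_num

lemma PF_mono (S : Finset ℂ) (Λ : ℝ) : Monotone (PF S Λ) := by
  intro a b hab
  exact Finset.sum_le_sum fun s _ => Finset.sum_le_sum fun s' _ => ind_le (fun h => h.trans hab) _ _

lemma PF_subset {S S' : Finset ℂ} (h : S ⊆ S') (Λ y : ℝ) : PF S Λ y ≤ PF S' Λ y := by
  unfold PF
  refine (Finset.sum_le_sum fun s _ => Finset.sum_le_sum_of_subset_of_nonneg h
    fun s' _ _ => term_nonneg _ _ _).trans ?_
  exact Finset.sum_le_sum_of_subset_of_nonneg h fun s _ _ =>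
    Finset.sum_nonneg fun _ _ => term_nonneg _ _ _

lemma PF_scale (S : Finset ℂ) {Λ Λ' : ℝ} (h : 0 < Λ) (h' : 0 < Λ') (y : ℝ) :
    PF S Λ y = PF S Λ' (y * (Λ' / Λ)) := by
  unfold PF
  refine Finset.sum_congr rfl fun s _ => Finset.sum_congr rfl fun s' _ => ?_
  congr 2
  have e : |(s.im - s'.im) * Λ' / (2 * π)| = |(s.im - s'.im) * Λ / (2 * π)| * (Λ' / Λ) := by
    have hq : 0 < Λ' / Λ := by positivity
    have e1 : (s.im - s'.im) * Λ' / (2 * π) = (s.im - s'.im) * Λ / (2 * π) * (Λ' / Λ) := by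
      field_simp
    rw [e1, abs_mul, abs_of_pos hq]
  rw [e]
  apply propext
  exact (mul_le_mul_iff_left₀ (by positivity : 0 < Λ' / Λ)).symm

lemma PF_anti (S : Finset ℂ) {Λ Λ' : ℝ} (h : 0 < Λ) (h' : Λ ≤ Λ') {y : ℝ} (hy : 0 ≤ y) :
    PF S Λ' y ≤ PF S Λ y := by
  rw [PF_scale S (h.trans_le h') h y]
  apply PF_mono
  have : Λ / Λ' ≤ 1 := (div_le_one (h.trans_le h')).2 h'
  exact mul_le_of_le_one_right hy this

/-- all scales from the unit scale -/
lemma PF_cells (S : Finset ℂ) (Λ : ℝ) {y : ℝ} (hy : 0 ≤ y) :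
    PF S Λ y ≤ (2 * y + 3) * PF S Λ 1 := by
  classical
  obtain ⟨u, hu⟩ : ∃ u : ℂ → ℝ, ∀ s, u s = s.im * Λ / (2 * π) := ⟨_, fun _ => rfl⟩
  have e : ∀ s s' : ℂ, (s.im - s'.im) * Λ / (2 * π) = u s - u s' := by
    intro s s'
    rw [hu, hu]
    ring
  unfold PF
  simp only [e]
  obtain ⟨h0, hh0⟩ : ∃ h0 : ℕ, h0 = ⌊y⌋₊ + 1 := ⟨_, rfl⟩
  have hfl : (⌊y⌋₊ : ℝ) ≤ y := Nat.floor_le hy
  have hfl2 : y < (⌊y⌋₊ : ℝ) + 1 := Nat.lt_floor_add_one y
  have hm : ∀ s ∈ S, 0 ≤ mz s := fun s _ => mz_nonneg s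
  have h1 : ∑ s ∈ S, ∑ s' ∈ S, mz s * mz s' * (if |u s - u s'| ≤ y then (1 : ℝ) else 0) ≤
      ∑ h ∈ Finset.Icc (-(h0 : ℤ)) h0, ∑ s ∈ S, mz s * cell S mz u (⌊u s⌋ + h) := by
    rw [Finset.sum_comm (s := Finset.Icc (-(h0 : ℤ)) h0)]
    refine Finset.sum_le_sum fun s _ => ?_
    rw [← Finset.mul_sum]
    have h2 : ∑ s' ∈ S, mz s * mz s' * (if |u s - u s'| ≤ y then (1 : ℝ) else 0) =
        mz s * ∑ s' ∈ S, mz s' * (if |u s - u s'| ≤ y then (1 : ℝ) else 0) := by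
      rw [Finset.mul_sum]
      exact Finset.sum_congr rfl fun s' _ => by ring
    rw [h2]
    refine mul_le_mul_of_nonneg_left ?_ (mz_nonneg s)
    unfold cell
    rw [Finset.sum_comm]
    refine Finset.sum_le_sum fun s' _ => ?_
    by_cases hd : |u s - u s'| ≤ y
    · rw [if_pos hd, mul_one]
      have h3 : ⌊u s'⌋ - ⌊u s⌋ ∈ Finset.Icc (-(h0 : ℤ)) h0 := by
        obtain ⟨d1, d2⟩ := abs_le.1 hd
        have f1 := Int.floor_le (u s)
        have f2 := Int.lt_floor_add_one (u s)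
        have f3 := Int.floor_le (u s')
        have f4 := Int.lt_floor_add_one (u s')
        rw [Finset.mem_Icc]
        constructor
        · have : (-(h0 : ℤ) : ℝ) < ((⌊u s'⌋ - ⌊u s⌋ : ℤ) : ℝ) + 1 := by
            rw [hh0]; push_cast; linarith
          have h5 : -(h0 : ℤ) < (⌊u s'⌋ - ⌊u s⌋) + 1 := by exact_mod_cast this
          omega
        · have : ((⌊u s'⌋ - ⌊u s⌋ : ℤ) : ℝ) < (h0 : ℝ) + 1 := by
            rw [hh0]; push_cast; linarith
          have h5 : (⌊u s'⌋ - ⌊u s⌋) < (h0 : ℤ) + 1 := by exact_mod_cast this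
          omega
      have h4 := Finset.single_le_sum (f := fun h : ℤ => if ⌊u s'⌋ = ⌊u s⌋ + h then mz s' else 0)
        (fun h _ => by split_ifs; exacts [mz_nonneg _, le_rfl]) h3
      refine le_trans (le_of_eq ?_) h4
      show mz s' = if ⌊u s'⌋ = ⌊u s⌋ + (⌊u s'⌋ - ⌊u s⌋) then mz s' else 0
      rw [if_pos (by ring)]
    · rw [if_neg hd, mul_zero]
      exact Finset.sum_nonneg fun h _ => by split_ifs; exacts [mz_nonneg _, le_rfl]
  have h2 : ∀ h ∈ Finset.Icc (-(h0 : ℤ)) h0, ∑ s ∈ S, mz s * cell S mz u (⌊u s⌋ + h) ≤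
      ∑ s ∈ S, ∑ s' ∈ S, mz s * mz s' * (if |u s - u s'| ≤ 1 then (1 : ℝ) else 0) := by
    intro h _
    refine (cell_shift S mz u hm h).trans ?_
    refine Finset.sum_le_sum fun s _ => ?_
    unfold cell
    rw [Finset.mul_sum]
    refine Finset.sum_le_sum fun s' _ => ?_
    by_cases hf : ⌊u s'⌋ = ⌊u s⌋
    · rw [if_pos hf]
      have f1 := Int.floor_le (u s)
      have f2 := Int.lt_floor_add_one (u s)
      have f3 := Int.floor_le (u s')
      have f4 := Int.lt_floor_add_one (u s')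
      rw [hf] at f3 f4
      rw [if_pos (by rw [abs_le]; constructor <;> linarith), mul_one]
    · rw [if_neg hf, mul_zero]
      exact term_nonneg _ _ _
  have h3 := Finset.sum_le_sum h2
  rw [Finset.sum_const, Int.card_Icc, nsmul_eq_mul] at h3
  refine (h1.trans h3).trans ?_
  apply mul_le_mul_of_nonneg_right _ (Finset.sum_nonneg fun _ _ =>
    Finset.sum_nonneg fun _ _ => term_nonneg _ _ _)
  have h5 : (((h0 : ℤ) + 1 - -(h0 : ℤ)).toNat : ℝ) = 2 * h0 + 1 := by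
    have : ((h0 : ℤ) + 1 - -(h0 : ℤ)).toNat = 2 * h0 + 1 := by omega
    rw [this]; push_cast; ring
  rw [h5, hh0]
  push_cast
  linarith

/-- the uniform bound -/
theorem PF_bound : ∃ C0 T0 : ℝ, 0 < C0 ∧ 10 ≤ T0 ∧ ∀ T : ℝ, T0 ≤ T → ∀ y : ℝ, 0 ≤ y →
    PF (Zt T) (Real.log T) y ≤ C0 * (1 + y) * XX T := by
  obtain ⟨C, hC, hblk⟩ := PV.blk
  obtain ⟨T0, hT0, h⟩ := PV.full hC hblk (show (0 : ℝ) < 2 by norm_num)
  have hPP := PV.PP_nonneg (show (0 : ℝ) < 2 by norm_num)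
  refine ⟨3 * (PV.PP 2 + (2 * C + 5)), T0, by positivity, hT0, fun T hT y hy => ?_⟩
  have hX := XX_pos (show (1 : ℝ) < T by linarith)
  have h1 : VV (Zt T) 2 (Real.log T) ≤ (PV.PP 2 + (2 * C + 5)) * XX T := by
    have h2 := (abs_le.1 (h T hT)).2
    unfold XX
    linarith
  have h3 : PF (Zt T) (Real.log T) 1 ≤ VV (Zt T) 2 (Real.log T) := by
    unfold PF VV
    refine Finset.sum_le_sum fun s _ => Finset.sum_le_sum fun s' _ => ?_
    refine mul_le_mul_of_nonneg_left ?_ (mul_nonneg (mz_nonneg s) (mz_nonneg s'))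
    split_ifs with hd
    · unfold tent
      exact (by linarith : (1 : ℝ) ≤ 2 - |(s.im - s'.im) * Real.log T / (2 * Real.pi)|).trans
        (le_max_right _ _)
    · exact tent_nonneg _ _
  have h4 := PF_cells (Zt T) (Real.log T) hy
  calc PF (Zt T) (Real.log T) y ≤ (2 * y + 3) * PF (Zt T) (Real.log T) 1 := h4
    _ ≤ (2 * y + 3) * ((PV.PP 2 + (2 * C + 5)) * XX T) :=
        mul_le_mul_of_nonneg_left (h3.trans h1) (by linarith)
    _ ≤ (3 * (1 + y)) * ((PV.PP 2 + (2 * C + 5)) * XX T) := by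
        apply mul_le_mul_of_nonneg_right _ (by positivity)
        linarith
    _ = _ := by ring

variable {κ : ℝ} {K : ℝ → ℝ}

lemma ind_ww_int (hK : TK κ K) (s x : ℝ) :
    Integrable fun y => (if |x| ≤ y then (1 : ℝ) else 0) * ww K s y := by
  refine (ww_int hK s).bdd_mul (c := 1) ?_ (Eventually.of_forall fun y => ?_)
  · exact (Measurable.ite measurableSet_Ici measurable_const measurable_const).aestronglyMeasurable
  · split_ifs <;> simp

lemma bl_ind (hK : TK κ K) (hκ : 0 ≤ κ) (s x : ℝ) :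
    bl (rr K s) x = 4 * π * ∫ y, (if |x| ≤ y then (1 : ℝ) else 0) * ww K s y := by
  rw [bl_tail hK hκ, ← integral_indicator measurableSet_Ioi]
  congr 1
  have h0 : ∀ᵐ y : ℝ, y ≠ |x| := by
    rw [ae_iff]
    simp
  refine integral_congr_ae ?_
  filter_upwards [h0] with y hy
  rcases lt_or_gt_of_ne hy with h | h
  · rw [Set.indicator_of_notMem (by simpa using h.le), if_neg (not_le.2 h), zero_mul]
  · rw [Set.indicator_of_mem (by simpa using h), if_pos h.le, one_mul]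

lemma PF_ww_int (hK : TK κ K) (s : ℝ) (S : Finset ℂ) (Λ : ℝ) :
    Integrable fun y => PF S Λ y * ww K s y := by
  unfold PF
  simp_rw [Finset.sum_mul]
  refine integrable_finset_sum _ fun z _ => integrable_finset_sum _ fun z' _ => ?_
  have := (ind_ww_int hK s ((z.im - z'.im) * Λ / (2 * π))).const_mul (mz z * mz z')
  refine this.congr (Eventually.of_forall fun y => ?_)
  show mz z * mz z' * ((if |(z.im - z'.im) * Λ / (2 * π)| ≤ y then (1 : ℝ) else 0) * ww K s y) = _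
  ring

/-- the pair sum of the test function -/
lemma sum_bl (hK : TK κ K) (hκ : 0 ≤ κ) (s : ℝ) (S : Finset ℂ) (Λ : ℝ) :
    ∑ z ∈ S, ∑ z' ∈ S, mz z * mz z' * bl (rr K s) ((z.im - z'.im) * Λ / (2 * π)) =
      4 * π * ∫ y, PF S Λ y * ww K s y := by
  have e : ∀ y, PF S Λ y * ww K s y = ∑ z ∈ S, ∑ z' ∈ S, mz z * mz z' *
      ((if |(z.im - z'.im) * Λ / (2 * π)| ≤ y then (1 : ℝ) else 0) * ww K s y) := by
    intro y
    unfold PF
    rw [Finset.sum_mul]
    refine Finset.sum_congr rfl fun z _ => ?_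
    rw [Finset.sum_mul]
    exact Finset.sum_congr rfl fun z' _ => by ring
  simp_rw [e]
  rw [integral_finset_sum _ fun z _ => integrable_finset_sum _ fun z' _ =>
    (ind_ww_int hK s ((z.im - z'.im) * Λ / (2 * π))).const_mul (mz z * mz z'), Finset.mul_sum]
  refine Finset.sum_congr rfl fun z _ => ?_
  rw [integral_finset_sum _ fun z' _ =>
    (ind_ww_int hK s ((z.im - z'.im) * Λ / (2 * π))).const_mul (mz z * mz z'), Finset.mul_sum]
  refine Finset.sum_congr rfl fun z' _ => ?_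
  rw [integral_const_mul, bl_ind hK hκ]
  ring

end Pool.Agent.NH11.SW
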