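import Pool.Agent.Y744.PCR.Core
import Pool.Agent.NH10.BM.Fin

set_option autoImplicit false

/-! # Odd functions with a spectral gap that are almost nonnegative on a long system -/

open MeasureTheory Filter Topology Real Set

namespace Pool.Agent.NH11.SW

open Pool.Agent.Y744 Pool.Agent.NH10.BM

theorem odd_sparse {κ : ℝ} {H : ℝ → ℝ} {B C δ : ℝ} (hκ : 0 < κ) (hm : Measurable H)
    (ho : ∀ x, H (-x) = -H x) (hB : ∀ x, |H x| ≤ B * (1 + x ^ 2)) (hcont : ∀ᵐ x, ContinuousAt H x)
    (hC : 0 ≤ C) (hδ : 0 < δ) {a r : ℕ → ℝ} (hr : ∀ k, 0 < r k) (hra : ∀ k, r k ≤ a k)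
    (har : ∀ k, a k + r k ≤ a (k + 1)) (hns : ¬ Summable fun k => (r k / a k) ^ 2)
    (hl : ∀ k, ∀ᵐ x, x ∈ Set.Icc (a k) (a k + r k) → -(C * Real.exp (-(δ * r k))) ≤ H x)
    (hz : ∀ K, TK (κ / 2) K → ∀ s : ℝ, |s| ≤ κ / 2 →
      ∫ x, H x * (ct K x * Real.sin (2 * π * s * x)) = 0) : ∀ᵐ x, H x = 0 := by
  have hpi := Real.pi_pos
  obtain ⟨K, hK, hK0, hKp, -⟩ := exists_pos (κ := κ / 2) (by positivity)
  have key : ∀ ε : ℝ, 0 < ε → ε ≤ 1 → ∀ᵐ x, H x * ct K (ε * x) = 0 := by
    intro ε hε hε1
    obtain ⟨L, hL⟩ : ∃ L : ℝ → ℝ, L = fun α => ε⁻¹ * K (ε⁻¹ * α) := ⟨_, rfl⟩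
    have hLt : TK (κ / 2) L := by
      rw [hL]
      refine (hK.dil hε).mono ?_
      have : ε * (κ / 2) ≤ 1 * (κ / 2) := mul_le_mul_of_nonneg_right hε1 (by positivity)
      linarith
    have hLc : ∀ x, ct L x = ct K (ε * x) := fun x => by
      rw [hL]
      exact TK.ct_dil K hε x
    have hGi := int_mul_ct hm hB hLt
    obtain ⟨G, hGd⟩ : ∃ G : ℝ → ℝ, G = fun x => H x * ct L x := ⟨_, rfl⟩
    rw [← hGd] at hGi
    have hev : ∀ x, G (-x) = -G x := by
      intro x
      rw [hGd]
      show H (-x) * ct L (-x) = -(H x * ct L x)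
      rw [ho, TK.ct_neg]
      ring
    have hgap : Gap G (min 1 (π * κ)) := by
      intro ξ hξ
      have h1 : |ξ| ≤ π * κ := hξ.trans (min_le_right _ _)
      obtain ⟨s, hs⟩ : ∃ s : ℝ, s = ξ / (2 * π) := ⟨_, rfl⟩
      have hs1 : |s| ≤ κ / 2 := by
        rw [hs, abs_div, abs_of_pos (by positivity : (0 : ℝ) < 2 * π),
          div_le_iff₀ (by positivity)]
        linarith
      have hs0 : ∫ x, G x * Real.sin (ξ * x) = 0 := by
        have h2 := hz L hLt s hs1
        rw [← h2]
        refine integral_congr_ae (Eventually.of_forall fun x => ?_)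
        show G x * Real.sin (ξ * x) = H x * (ct L x * Real.sin (2 * π * s * x))
        rw [hGd]
        have : 2 * π * s * x = ξ * x := by
          rw [hs]
          field_simp
        rw [this]
        ring
      have hc0 : ∫ x, G x * Real.cos (ξ * x) = 0 := by
        have h1 : ∫ x, G x * Real.cos (ξ * x) = ∫ x, G (-x) * Real.cos (ξ * (-x)) :=
          (integral_neg_eq_self (fun x => G x * Real.cos (ξ * x)) volume).symm
        have h2 : ∫ x, G (-x) * Real.cos (ξ * (-x)) = -∫ x, G x * Real.cos (ξ * x) := by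
          rw [← integral_neg]
          refine integral_congr_ae (Eventually.of_forall fun x => ?_)
          show G (-x) * Real.cos (ξ * (-x)) = -(G x * Real.cos (ξ * x))
          rw [hev, mul_neg, Real.cos_neg]
          ring
        linarith
      have hic : Integrable fun x => G x * Real.cos (ξ * x) :=
        hGi.mul_bdd (c := 1) (by fun_prop) (Eventually.of_forall fun x => by
          rw [Real.norm_eq_abs]; exact Real.abs_cos_le_one _)
      have his : Integrable fun x => G x * Real.sin (ξ * x) :=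
        hGi.mul_bdd (c := 1) (by fun_prop) (Eventually.of_forall fun x => by
          rw [Real.norm_eq_abs]; exact Real.abs_sin_le_one _)
      have e : ∀ x : ℝ, (G x : ℂ) * Complex.exp (Complex.I * (ξ * x)) =
          ((G x * Real.cos (ξ * x) : ℝ) : ℂ) + ((G x * Real.sin (ξ * x) : ℝ) : ℂ) * Complex.I := by
        intro x
        rw [mul_comm Complex.I, Complex.exp_mul_I]
        push_cast
        ring
      simp_rw [e]
      rw [integral_add hic.ofReal (his.ofReal.mul_const _), integral_mul_const]
      have i1 : ∫ x, ((G x * Real.cos (ξ * x) : ℝ) : ℂ) =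
          ((∫ x, G x * Real.cos (ξ * x) : ℝ) : ℂ) := integral_ofReal
      have i2 : ∫ x, ((G x * Real.sin (ξ * x) : ℝ) : ℂ) =
          ((∫ x, G x * Real.sin (ξ * x) : ℝ) : ℂ) := integral_ofReal
      rw [i1, i2, hc0, hs0]
      simp
    have hLn : ∀ x, 0 ≤ ct L x := fun x => by rw [hLc]; exact hK0 _
    have hLi : Integrable (ct L) := by
      have := int_mul_ct (H := fun _ => (1 : ℝ)) (B := 1) measurable_const (fun x => by
        rw [abs_one, one_mul]
        nlinarith [sq_nonneg x]) hLt
      simpa using this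
    have hfin := sparse_zero (G := G) (w := fun x => C * ct L x) hGi (hLi.const_mul C)
      (fun x => mul_nonneg hC (hLn x)) (by
        filter_upwards [hcont] with x hx
        rw [hGd]
        exact hx.mul hLt.ct_cont.continuousAt)
      (σ := min 1 (π * κ)) (δ := δ) (lt_min one_pos (by positivity)) (min_le_left _ _) hδ hgap
      hr hra har hns (fun k => by
        filter_upwards [hl k] with x hx hx2
        have h1 := hx hx2
        rw [hGd]
        have h2 := mul_le_mul_of_nonneg_right h1 (hLn x)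
        calc -(Real.exp (-(δ * r k)) * (C * ct L x)) =
            -(C * Real.exp (-(δ * r k))) * ct L x := by ring
          _ ≤ H x * ct L x := h2)
    filter_upwards [hfin] with x hx
    rw [← hLc]
    rw [hGd] at hx
    exact hx
  have h1 : ∀ᵐ x, ∀ n : ℕ, H x * ct K (1 / ((n : ℝ) + 1) * x) = 0 := by
    rw [ae_all_iff]
    intro n
    have hn : (0 : ℝ) < (n : ℝ) + 1 := by positivity
    refine key _ (by positivity) ?_
    rw [div_le_one hn]
    have : (0 : ℝ) ≤ n := Nat.cast_nonneg n
    linarith
  filter_upwards [h1] with x hx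
  have h2 : Tendsto (fun n : ℕ => 1 / ((n : ℝ) + 1) * x) atTop (𝓝 (0 * x)) :=
    tendsto_one_div_add_atTop_nhds_zero_nat.mul_const x
  rw [zero_mul] at h2
  have h3 : Tendsto (fun n : ℕ => ct K (1 / ((n : ℝ) + 1) * x)) atTop (𝓝 (ct K 0)) :=
    (hK.ct_cont.tendsto 0).comp h2
  obtain ⟨n, hn⟩ := (h3.eventually_const_lt hKp).exists
  exact (mul_eq_zero.1 (hx n)).resolve_right hn.ne'

/-- continuity almost everywhere of the discrepancy -/
lemma dE_cont {A' : ℝ → ℝ} (hA' : Monotone A') : ∀ᵐ x, ContinuousAt (dE A') x := by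
  have h1 : ∀ᵐ x : ℝ, ContinuousAt A' x := by
    filter_upwards [hA'.countable_not_continuousAt.ae_notMem volume] with x hx
    by_contra hc
    exact hx hc
  have h2 : ∀ᵐ x : ℝ, ContinuousAt AG x := by
    have h0 : ∀ᵐ x : ℝ, x ≠ 0 := by
      rw [ae_iff]
      simp
    filter_upwards [h0] with x hx
    rcases lt_or_gt_of_ne hx with h | h
    · have h3 : AG =ᶠ[𝓝 x] fun _ => 0 := by
        filter_upwards [gt_mem_nhds h] with y hy
        unfold AG
        rw [if_pos hy]
      exact continuousAt_const.congr h3.symm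
    · have h3 : AG =ᶠ[𝓝 x] fun y => 1 + 2 * gp y := by
        filter_upwards [lt_mem_nhds h] with y hy
        unfold AG
        rw [if_neg (not_lt.2 hy.le)]
      exact ((continuousAt_const.add (continuousAt_const.mul gp_cont.continuousAt))).congr h3.symm
  have hq : Measure.QuasiMeasurePreserving (fun x : ℝ => -x) volume volume :=
    (Measure.measurePreserving_neg volume).quasiMeasurePreserving
  have h3 := hq.ae h1
  have h4 := hq.ae h2
  filter_upwards [h1, h2, h3, h4] with x a1 a2 a3 a4
  unfold dE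
  exact (a1.sub a2).sub ((ContinuousAt.comp (f := fun x : ℝ => -x) a3 continuous_neg.continuousAt).sub
    (ContinuousAt.comp (f := fun x : ℝ => -x) a4 continuous_neg.continuousAt))

/-- the limit is the expected one when it is almost above it on a long system -/
theorem limit_eq {A' : ℝ → ℝ} {C0 κ : ℝ} (hκ : 0 < κ) (hA' : Monotone A')
    (hneg : ∀ y, y < 0 → A' y = 0) (hb : ∀ y, |A' y| ≤ C0 * (1 + y ^ 2))
    (hm : ∀ K, TK (κ / 2) K → ∀ s : ℝ, |s| ≤ κ / 2 →
      ∫ y, A' y * (ct K y * Real.sin (2 * π * s * y)) =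
        ∫ y, AG y * (ct K y * Real.sin (2 * π * s * y)))
    {C δ : ℝ} (hC : 0 ≤ C) (hδ : 0 < δ)
    {a r : ℕ → ℝ} (hr : ∀ k, 0 < r k) (hra : ∀ k, r k ≤ a k)
    (har : ∀ k, a k + r k ≤ a (k + 1)) (hns : ¬ Summable fun k => (r k / a k) ^ 2)
    (hyp : ∀ k, ∀ x ∈ Set.Icc (a k) (a k + r k), AG x - C * Real.exp (-(δ * r k)) ≤ A' x)
    {x : ℝ} (hx : 0 < x) : A' x = AG x := by
  have ha : ∀ k, 0 < a k := fun k => (hr k).trans_le (hra k)
  have hae : ∀ᵐ y, dE A' y = 0 := by
    refine odd_sparse hκ (dE_meas hA') (dE_odd A') (dE_bound hb) (dE_cont hA') hC hδ hr hra har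
      hns (fun k => Eventually.of_forall fun y hy => ?_) fun K hK s hs => ?_
    · rw [dE_pos hneg (lt_of_lt_of_le (ha k) hy.1)]
      have := hyp k y hy
      linarith
    · obtain ⟨w, hw⟩ : ∃ w : ℝ → ℝ, w = fun y => ct K y * Real.sin (2 * π * s * y) := ⟨_, rfl⟩
      have hwodd : ∀ y, w (-y) = -w y := by
        intro y
        rw [hw]
        show ct K (-y) * Real.sin (2 * π * s * (-y)) = -(ct K y * Real.sin (2 * π * s * y))
        rw [TK.ct_neg, mul_neg, Real.sin_neg]
        ring
      have hbd : ∀ g : ℝ → ℝ, ∀ B : ℝ, Measurable g → (∀ x, |g x| ≤ B * (1 + x ^ 2)) →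
          Integrable fun y => g y * w y := by
        intro g B hg hB
        have h1 := (int_mul_ct hg hB hK).mul_bdd (g := fun y => Real.sin (2 * π * s * y)) (c := 1)
          (by fun_prop) (Eventually.of_forall fun x => by
            rw [Real.norm_eq_abs]; exact Real.abs_sin_le_one _)
        refine h1.congr (Eventually.of_forall fun y => ?_)
        show g y * ct K y * Real.sin (2 * π * s * y) = g y * w y
        rw [hw]
        ring
      have iA := hbd A' C0 hA'.measurable hb
      have iG := hbd AG 2 AG_meas AG_bound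
      have d0 : ∫ y, (A' y - AG y) * w y = 0 := by
        have h1 : ∫ y, (A' y - AG y) * w y = (∫ y, A' y * w y) - ∫ y, AG y * w y := by
          rw [← integral_sub iA iG]
          refine integral_congr_ae (Eventually.of_forall fun y => ?_)
          show (A' y - AG y) * w y = A' y * w y - AG y * w y
          ring
        have h2 := hm K hK s hs
        rw [h1, hw]
        linarith
      have d1 : ∫ y, (A' (-y) - AG (-y)) * w y = 0 := by
        have h1 : ∫ y, (A' (-y) - AG (-y)) * w y = ∫ y, -((A' (-y) - AG (-y)) * w (-y)) := by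
          refine integral_congr_ae (Eventually.of_forall fun y => ?_)
          show (A' (-y) - AG (-y)) * w y = -((A' (-y) - AG (-y)) * w (-y))
          rw [hwodd]
          ring
        rw [h1, integral_neg, integral_neg_eq_self (fun y => (A' y - AG y) * w y) volume, d0,
          neg_zero]
      have iD : Integrable fun y => (A' y - AG y) * w y := by
        refine (iA.sub iG).congr (Eventually.of_forall fun y => ?_)
        show A' y * w y - AG y * w y = (A' y - AG y) * w y
        ring
      have iD1 : Integrable fun y => (A' (-y) - AG (-y)) * w y := by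
        refine iD.comp_neg.neg.congr (Eventually.of_forall fun y => ?_)
        show -((A' (-y) - AG (-y)) * w (-y)) = (A' (-y) - AG (-y)) * w y
        rw [hwodd]
        ring
      have e : ∀ y, dE A' y * (ct K y * Real.sin (2 * π * s * y)) =
          (A' y - AG y) * w y - (A' (-y) - AG (-y)) * w y := by
        intro y
        rw [hw]
        unfold dE
        ring
      simp_rw [e]
      rw [integral_sub iD iD1, d0, d1, sub_zero]
  -- equality almost everywhere on the positive axis
  have hae2 : ∀ᵐ y, 0 < y → A' y = AG y := by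
    filter_upwards [hae] with y hy hy0
    rw [dE_pos hneg hy0] at hy
    linarith
  have hdense : ∀ u v : ℝ, 0 ≤ u → u < v → ∃ y, u < y ∧ y < v ∧ A' y = AG y := by
    intro u v hu huv
    by_contra hcon
    push Not at hcon
    have h1 : Set.Ioo u v ⊆ {y | ¬ (0 < y → A' y = AG y)} := by
      intro y hy
      simp only [Set.mem_ofPred_eq, not_forall]
      exact ⟨lt_of_le_of_lt hu hy.1, hcon y hy.1 hy.2⟩
    have h2 : volume (Set.Ioo u v) = 0 := measure_mono_null h1 (ae_iff.1 hae2)
    rw [Real.volume_Ioo, ENNReal.ofReal_eq_zero] at h2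
    linarith
  have hAGx : ∀ y, 0 < y → AG y = 1 + 2 * gp y := fun y hy => by
    unfold AG
    rw [if_neg (not_lt.2 hy.le)]
  apply le_antisymm
  · refine le_of_forall_pos_le_add fun ε hε => ?_
    have hc : ContinuousAt (fun z => gp z) x := gp_cont.continuousAt
    have h3 : ∀ᶠ z in 𝓝 x, gp z < gp x + ε / 2 := hc.eventually_lt_const (by linarith)
    obtain ⟨δ', hδ', h4⟩ := Metric.eventually_nhds_iff.1 h3
    obtain ⟨y, hy1, hy2, hy3⟩ := hdense x (x + δ') hx.le (by linarith)
    have h5 := h4 (show dist y x < δ' by rw [Real.dist_eq, abs_lt]; constructor <;> linarith)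
    have h6 := hA' hy1.le
    rw [hy3, hAGx y (by linarith)] at h6
    rw [hAGx x hx]
    linarith
  · refine le_of_forall_pos_le_add fun ε hε => ?_
    have hc : ContinuousAt (fun z => gp z) x := gp_cont.continuousAt
    have h3 : ∀ᶠ z in 𝓝 x, gp x - ε / 2 < gp z := hc.eventually_const_lt (by linarith)
    obtain ⟨δ', hδ', h4⟩ := Metric.eventually_nhds_iff.1 h3
    obtain ⟨y, hy1, hy2, hy3⟩ := hdense (max 0 (x - δ')) x (le_max_left _ _)
      (max_lt hx (by linarith))
    have hy4 : x - δ' < y := lt_of_le_of_lt (le_max_right _ _) hy1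
    have hy5 : 0 < y := lt_of_le_of_lt (le_max_left _ _) hy1
    have h5 := h4 (show dist y x < δ' by rw [Real.dist_eq, abs_lt]; constructor <;> linarith)
    have h6 := hA' hy2.le
    rw [hy3, hAGx y hy5] at h6
    rw [hAGx x hx]
    linarith

end Pool.Agent.NH11.SW
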