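import Pool.Agent.NH11.SW.Sum
import Pool.Agent.NH11.SW.Odd

set_option autoImplicit false

/-! # The limits along a filter -/

open MeasureTheory Filter Topology Real Set

namespace Pool.Agent.NH11.SW

open Pool.Agent.Y744
open Pool.Agent.NH11.PV (mz mz_nonneg Zt Zb XX XX_pos N_lim Nbad Nbad_eq bad mem_Zt mem_Zb
  Nstar Neq GG gap Nstar_eq Neq_eq bad_le dens ZZ)
open H370 (NN mult Zf)

variable {κ : ℝ} {K : ℝ → ℝ}

/-- passage to the limit in the integrals along a filter -/
lemma lim_int' {A : ℝ → ℝ → ℝ} {T0 C : ℝ} (hmono : ∀ T, T0 ≤ T → Monotone (A T))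
    (hb : ∀ T, T0 ≤ T → ∀ y, |A T y| ≤ C * (1 + y ^ 2)) {w : ℝ → ℝ} (hw : Measurable w) {D : ℝ}
    (hwd : ∀ y, |w y| ≤ D / (1 + y ^ 2) ^ 2) {I : ℝ} {u : Filter ℝ} [NeBot u]
    (hI : Tendsto (fun T => ∫ y, A T y * w y) u (𝓝 I))
    (hu : u ≤ atTop) {A' : ℝ → ℝ} (hA' : Monotone A')
    (hlim : ∀ y, Tendsto (fun T => A T y) u (𝓝 (A' y))) : ∫ y, A' y * w y = I := by
  have hC : 0 ≤ C := by
    have := (abs_nonneg _).trans (hb T0 le_rfl 0)
    simpa using this
  set q : ℕ → ℝ := TopologicalSpace.denseSeq ℝ with hq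
  have hqd : DenseRange q := TopologicalSpace.denseRange_denseSeq ℝ
  have hex : ∀ n : ℕ, ∃ T : ℝ, max (n : ℝ) T0 ≤ T ∧
      (∀ j ∈ Finset.range (n + 1), |A T (q j) - A' (q j)| < 1 / ((n : ℝ) + 1)) ∧
      |(∫ y, A T y * w y) - I| < 1 / ((n : ℝ) + 1) := by
    intro n
    have h1 : ∀ᶠ T in u, max (n : ℝ) T0 ≤ T := hu (eventually_ge_atTop _)
    have h2 : ∀ᶠ T in u, ∀ j ∈ Finset.range (n + 1), |A T (q j) - A' (q j)| < 1 / ((n : ℝ) + 1) := by
      rw [Filter.eventually_all_finset]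
      intro j _
      have := (Metric.tendsto_nhds.1 (hlim (q j))) (1 / ((n : ℝ) + 1)) (by positivity)
      simpa [Real.dist_eq] using this
    have h3 : ∀ᶠ T in u, |(∫ y, A T y * w y) - I| < 1 / ((n : ℝ) + 1) := by
      have := (Metric.tendsto_nhds.1 hI) (1 / ((n : ℝ) + 1)) (by positivity)
      simpa [Real.dist_eq] using this
    exact (h1.and (h2.and h3)).exists
  choose t ht1 ht2 ht3 using hex
  have htn : ∀ n : ℕ, (n : ℝ) ≤ t n := fun n => (le_max_left _ _).trans (ht1 n)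
  have htT : ∀ n : ℕ, T0 ≤ t n := fun n => (le_max_right _ _).trans (ht1 n)
  have hone : ∀ ε : ℝ, 0 < ε → ∀ᶠ n : ℕ in atTop, 1 / ((n : ℝ) + 1) < ε := fun ε hε =>
    (tendsto_order.1 tendsto_one_div_add_atTop_nhds_zero_nat).2 ε hε
  have hj : ∀ j, Tendsto (fun n => A (t n) (q j)) atTop (𝓝 (A' (q j))) := by
    intro j
    rw [Metric.tendsto_nhds]
    intro ε hε
    filter_upwards [hone ε hε, eventually_ge_atTop j] with n hn hnj
    rw [Real.dist_eq]
    exact (ht2 n j (Finset.mem_range.2 (by omega))).trans hn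
  have hI' : Tendsto (fun n => ∫ y, A (t n) y * w y) atTop (𝓝 I) := by
    rw [Metric.tendsto_nhds]
    intro ε hε
    filter_upwards [hone ε hε] with n hn
    rw [Real.dist_eq]
    exact (ht3 n).trans hn
  have hcont : ∀ x, ContinuousAt A' x → Tendsto (fun n => A (t n) x) atTop (𝓝 (A' x)) := by
    intro x hx
    rw [tendsto_order]
    constructor
    · intro a ha
      have h1 : ∀ᶠ y in 𝓝 x, a < A' y := hx.eventually_const_lt ha
      obtain ⟨δ, hδ, h2⟩ := Metric.eventually_nhds_iff.1 h1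
      obtain ⟨_, ⟨j, rfl⟩, hj1, hj2⟩ := hqd.exists_between (show x - δ < x by linarith)
      have h3 : a < A' (q j) := h2 (by rw [Real.dist_eq, abs_lt]; constructor <;> linarith)
      filter_upwards [(tendsto_order.1 (hj j)).1 a h3] with n hn
      exact hn.trans_le (hmono _ (htT n) hj2.le)
    · intro a ha
      have h1 : ∀ᶠ y in 𝓝 x, A' y < a := hx.eventually_lt_const ha
      obtain ⟨δ, hδ, h2⟩ := Metric.eventually_nhds_iff.1 h1
      obtain ⟨_, ⟨j, rfl⟩, hj1, hj2⟩ := hqd.exists_between (show x < x + δ by linarith)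
      have h3 : A' (q j) < a := h2 (by rw [Real.dist_eq, abs_lt]; constructor <;> linarith)
      filter_upwards [(tendsto_order.1 (hj j)).2 a h3] with n hn
      exact (hmono _ (htT n) hj1.le).trans_lt hn
  have hae : ∀ᵐ x, ContinuousAt A' x := by
    have := hA'.countable_not_continuousAt
    exact this.ae_notMem volume |>.mono fun x hx => by
      by_contra hc
      exact hx hc
  have hD : Integrable fun y : ℝ => C * D * (1 + y ^ 2)⁻¹ :=
    integrable_inv_one_add_sq.const_mul _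
  have h1 : Tendsto (fun n => ∫ y, A (t n) y * w y) atTop (𝓝 (∫ y, A' y * w y)) := by
    refine tendsto_integral_of_dominated_convergence _ (fun n => ?_) hD (fun n => ?_) ?_
    · exact ((hmono _ (htT n)).measurable.mul hw).aestronglyMeasurable
    · refine Eventually.of_forall fun y => ?_
      rw [Real.norm_eq_abs, abs_mul]
      have h1 : 0 < 1 + y ^ 2 := by positivity
      calc |A (t n) y| * |w y| ≤ (C * (1 + y ^ 2)) * (D / (1 + y ^ 2) ^ 2) := by
            gcongr
            · exact hb _ (htT n) y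
            · exact hwd y
        _ = C * D * (1 + y ^ 2)⁻¹ := by field_simp
    · filter_upwards [hae] with x hx
      exact (hcont x hx).mul_const _
  exact tendsto_nhds_unique h1 hI'

/-- the normalised pair count -/
noncomputable def Ap (T y : ℝ) : ℝ := PF (Zt T) (Real.log T) y / XX T

lemma PF_Nstar {y : ℝ} (hy : 0 ≤ y) : ∀ᶠ T in atTop,
    PF (Zt T) (Real.log T) y = Neq T + 2 * Nstar T y := by
  classical
  obtain ⟨δ, hδ0, hδ⟩ := gap
  have hpi := Real.pi_pos
  have ev : ∀ᶠ T : ℝ in atTop, 2 * Real.pi * y / Real.log T < δ := by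
    have h1 : Tendsto (fun T : ℝ => 2 * Real.pi * y / Real.log T) atTop (𝓝 0) :=
      Real.tendsto_log_atTop.const_div_atTop _
    exact h1.eventually (gt_mem_nhds hδ0)
  filter_upwards [ev, eventually_gt_atTop 1] with T hT hT1
  have hL0 := Real.log_pos hT1
  obtain ⟨L, hL⟩ : ∃ L, L = Real.log T := ⟨_, rfl⟩
  rw [Nstar_eq hδ hT, Neq_eq, ← hL]
  rw [← hL] at hL0
  obtain ⟨c, hc⟩ : ∃ c, c = 2 * Real.pi * y / L := ⟨_, rfl⟩
  have hc0 : 0 ≤ c := by rw [hc]; positivity
  rw [← hc]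
  have hswap : ∑ s ∈ Zt T, ∑ s' ∈ Zt T, mz s * mz s' *
      (if 0 < s.im - s'.im ∧ s.im - s'.im ≤ c then (1 : ℝ) else 0) =
      ∑ s ∈ Zt T, ∑ s' ∈ Zt T, mz s * mz s' *
      (if 0 < s'.im - s.im ∧ s'.im - s.im ≤ c then (1 : ℝ) else 0) := by
    rw [Finset.sum_comm]
    refine Finset.sum_congr rfl fun s _ => Finset.sum_congr rfl fun s' _ => ?_
    rw [mul_comm (mz s')]
  rw [two_mul]
  nth_rw 2 [hswap]
  rw [← Finset.sum_add_distrib, ← Finset.sum_add_distrib]
  unfold PF
  refine Finset.sum_congr rfl fun s _ => ?_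
  rw [← Finset.sum_add_distrib, ← Finset.sum_add_distrib]
  refine Finset.sum_congr rfl fun s' _ => ?_
  have e : |(s.im - s'.im) * L / (2 * π)| ≤ y ↔ |s.im - s'.im| ≤ c := by
    rw [abs_div, abs_mul, abs_of_pos hL0, abs_of_pos (by positivity : 0 < 2 * π),
      div_le_iff₀ (by positivity), hc, le_div_iff₀ hL0, mul_comm y]
  simp only [e]
  rw [← mul_add, ← mul_add]
  congr 1
  rcases lt_trichotomy s.im s'.im with h | h | h
  · rw [if_neg h.ne, if_neg (fun h' => absurd h'.1 (by linarith) :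
      ¬ (0 < s.im - s'.im ∧ s.im - s'.im ≤ c)), abs_of_neg (by linarith : s.im - s'.im < 0)]
    have h1 : 0 < s'.im - s.im := by linarith
    simp only [h1, true_and, neg_sub, zero_add]
  · rw [if_pos h, h, sub_self, abs_zero, if_pos hc0]
    simp
  · rw [if_neg h.ne', if_neg (fun h' => absurd h'.1 (by linarith) :
      ¬ (0 < s'.im - s.im ∧ s'.im - s.im ≤ c)), abs_of_pos (by linarith : 0 < s.im - s'.im)]
    have h1 : 0 < s.im - s'.im := by linarith
    simp only [h1, true_and, zero_add, add_zero]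

/-- the limit function along an ultrafilter -/
lemma exists_lim (g : Ultrafilter ℝ) (hgt : (g : Filter ℝ) ≤ atTop)
    (hbad : Tendsto (fun T => (Nbad T : ℝ) / XX T) (g : Filter ℝ) (𝓝 0)) :
    ∃ (A' : ℝ → ℝ) (C0 : ℝ), Monotone A' ∧ (∀ y, y < 0 → A' y = 0) ∧
      (∀ y, |A' y| ≤ C0 * (1 + y ^ 2)) ∧
      (∀ y, Tendsto (fun T => Ap T y) (g : Filter ℝ) (𝓝 (A' y))) ∧
      (∀ K, TK (1 / 2 / 2) K → ∀ s : ℝ, |s| ≤ 1 / 2 / 2 →
        ∫ y, A' y * (ct K y * Real.sin (2 * π * s * y)) =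
        ∫ y, AG y * (ct K y * Real.sin (2 * π * s * y))) := by
  obtain ⟨C0, T0, hC0, hT0, hb0⟩ := PF_bound'
  have hb : ∀ T, T0 ≤ T → ∀ y, |Ap T y| ≤ 2 * C0 * (1 + y ^ 2) := by
    intro T hT y
    have hX := XX_pos (show (1 : ℝ) < T by linarith)
    unfold Ap
    rw [abs_of_nonneg (div_nonneg (PF_nonneg _ _ _) hX.le), div_le_iff₀ hX]
    have h1 := hb0 T hT y
    have h2 : 1 + |y| ≤ 2 * (1 + y ^ 2) := by
      have := sq_abs y
      nlinarith [sq_nonneg (|y| - 1), abs_nonneg y]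
    calc PF (Zt T) (Real.log T) y ≤ C0 * (1 + |y|) * XX T := h1
      _ ≤ C0 * (2 * (1 + y ^ 2)) * XX T := by gcongr
      _ = _ := by ring
  have hmono : ∀ T, T0 ≤ T → Monotone (Ap T) := by
    intro T hT x y hxy
    have hX := XX_pos (show (1 : ℝ) < T by linarith)
    exact div_le_div_of_nonneg_right (PF_mono _ _ hxy) hX.le
  have hT : ∀ᶠ T in (g : Filter ℝ), T0 ≤ T := hgt (eventually_ge_atTop _)
  have hex : ∀ y, ∃ L, Tendsto (fun T => Ap T y) (g : Filter ℝ) (𝓝 L) := by
    intro y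
    have h1 : ((g.map fun T => Ap T y : Ultrafilter ℝ) : Filter ℝ) ≤
        𝓟 (Set.Icc (-(2 * C0 * (1 + y ^ 2))) (2 * C0 * (1 + y ^ 2))) := by
      rw [le_principal_iff]
      have h2 : ∀ᶠ T in (g : Filter ℝ), Ap T y ∈
          Set.Icc (-(2 * C0 * (1 + y ^ 2))) (2 * C0 * (1 + y ^ 2)) := by
        filter_upwards [hT] with T hT1
        exact abs_le.1 (hb T hT1 y)
      exact h2
    obtain ⟨L, _, hL⟩ := isCompact_Icc.ultrafilter_le_nhds _ h1
    exact ⟨L, hL⟩
  choose A' hlim using hex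
  have hA' : Monotone A' := by
    intro a b hab
    refine le_of_tendsto_of_tendsto (hlim a) (hlim b) ?_
    filter_upwards [hT] with T hT1 using hmono T hT1 hab
  refine ⟨A', 2 * C0, hA', fun y hy => ?_, fun y => ?_, hlim, fun K hK s hs => ?_⟩
  · refine tendsto_nhds_unique (hlim y) ?_
    have : (fun T => Ap T y) = fun _ => 0 := funext fun T => by
      unfold Ap
      rw [PF_neg _ _ hy, zero_div]
    rw [this]
    exact tendsto_const_nhds
  · refine le_of_tendsto (hlim y).abs ?_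
    filter_upwards [hT] with T hT1 using hb T hT1 y
  · obtain ⟨D, -, hD⟩ := ww_decay hK
    have h1 := JJ_lim hK (by norm_num) (s := s) (by linarith) hgt hbad
    have h2 : Tendsto (fun T => ∫ y, Ap T y * ww K s y) (g : Filter ℝ) (𝓝 (II K s)) := by
      refine h1.congr fun T => ?_
      rw [div_eq_mul_inv, ← integral_mul_const]
      congr 1
      funext y
      unfold Ap
      ring
    exact lim_int' hmono hb (ww_cont hK s).measurable (hD s) h2 hgt hA' hlim

/-- the primitive is the expected one -/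
lemma GG_gp (x : ℝ) : GG x = gp x := rfl

lemma GG_lip {x y : ℝ} (h : x ≤ y) : GG y - GG x ≤ y - x := by
  have h1 := gp_sub x y
  rw [GG_gp, GG_gp, h1]
  have := intervalIntegral.integral_mono_on h (gd_cont.intervalIntegrable _ _)
    (intervalIntegrable_const : IntervalIntegrable (fun _ => (1 : ℝ)) volume x y)
    fun u _ => gd_le u
  simpa using this

lemma Nstar_mono {T : ℝ} (hT : 1 < T) : ∀ a b : ℝ, 0 ≤ a → a ≤ b → ∀ δ : ℝ,
    (∀ s ∈ ZZ, 0 < s.im → δ ≤ s.im) → 2 * Real.pi * b / Real.log T < δ →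
    (Nstar T a : ℝ) ≤ Nstar T b := by
  intro a b ha hab δ hδ hb
  have hL0 := Real.log_pos hT
  have hpi := Real.pi_pos
  have h1 : 2 * Real.pi * a / Real.log T ≤ 2 * Real.pi * b / Real.log T := by gcongr
  rw [Nstar_eq hδ hb, Nstar_eq hδ (lt_of_le_of_lt h1 hb)]
  refine Finset.sum_le_sum fun s _ => Finset.sum_le_sum fun s' _ => ?_
  refine mul_le_mul_of_nonneg_left ?_ (mul_nonneg (mz_nonneg s) (mz_nonneg s'))
  split_ifs with h2 h3
  · exact le_rfl
  · exact absurd ⟨h2.1, h2.2.trans h1⟩ h3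
  · exact zero_le_one
  · exact le_rfl

/-- the windows bound the pairs of equal ordinates -/
lemma eq_of_windows {l : Filter ℝ} (hl : l ≤ atTop) {C δ : ℝ} (hC : 0 ≤ C) (hδ : 0 < δ)
    {a r : ℕ → ℝ} (hr : ∀ k, 0 < r k) (hra : ∀ k, r k ≤ a k)
    (har : ∀ k, a k + r k ≤ a (k + 1)) (hns : ¬ Summable fun k => (r k / a k) ^ 2)
    (hyp : ∀ k, ∀ x ∈ Set.Icc (a k) (a k + r k), ∀ ε : ℝ, 0 < ε → ∀ᶠ T in l,
      GG x - C * Real.exp (-(δ * r k)) - ε ≤ Nstar T x / XX T) :
    Tendsto (fun T => (Neq T : ℝ) / XX T) l (𝓝 1) := by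
  obtain ⟨C1, hC1, hmain⟩ := PV.main
  obtain ⟨d, hd0, hd⟩ := gap
  have hpi := Real.pi_pos
  refine tendsto_of_bound fun ε hε => ?_
  -- a long window
  obtain ⟨k, hk1, hk2⟩ : ∃ k, 8 * C1 / ε ≤ r k ∧ C * Real.exp (-(δ * r k)) ≤ ε / 16 := by
    obtain ⟨R1, hR1⟩ : ∃ R1 : ℝ, ∀ x, R1 ≤ x → C * Real.exp (-(δ * x)) ≤ ε / 16 := by
      have h1 : Tendsto (fun x : ℝ => C * Real.exp (-(δ * x))) atTop (𝓝 (C * 0)) := by
        refine Tendsto.const_mul _ ?_
        refine Real.tendsto_exp_neg_atTop_nhds_zero.comp ?_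
        exact tendsto_id.const_mul_atTop hδ
      rw [mul_zero] at h1
      obtain ⟨R1, hR1⟩ := ((tendsto_order.1 h1).2 (ε / 16) (by positivity)).exists_forall_of_atTop
      exact ⟨R1, fun x hx => (hR1 x hx).le⟩
    have hpos : 0 < max (8 * C1 / ε) (max R1 1) :=
      lt_of_lt_of_le one_pos ((le_max_right _ _).trans (le_max_right _ _))
    obtain ⟨S, hS1, hS2⟩ := NH10.BM.long_large hr hra har hns hpos 0
    obtain ⟨k, hk⟩ : S.Nonempty := by
      rw [Finset.nonempty_iff_ne_empty]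
      rintro rfl
      simp at hS2
    have := hS1 k hk
    exact ⟨k, (le_max_left _ _).trans this,
      hR1 _ ((le_max_left _ _).trans ((le_max_right _ _).trans this))⟩
  have hrk := hr k
  have hak : 0 < a k := hrk.trans_le (hra k)
  obtain ⟨T1, hT1, hm⟩ := hmain (a k) (a k + r k) hak.le (by linarith)
  obtain ⟨e1, he1⟩ : ∃ e1, e1 = ε / 16 := ⟨_, rfl⟩
  have he10 : 0 < e1 := by rw [he1]; positivity
  -- the partition
  obtain ⟨m, hm1⟩ := exists_nat_gt (r k / e1)
  have hm0 : (0 : ℝ) < m := lt_of_le_of_lt (by positivity) hm1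
  have hstep : r k / m ≤ e1 := by
    rw [div_lt_iff₀ he10] at hm1
    rw [div_le_iff₀ hm0]
    linarith
  have hpt : ∀ᶠ T in l, ∀ j ∈ Finset.range (m + 1),
      GG (a k + j * (r k / m)) - C * Real.exp (-(δ * r k)) - e1 ≤
        Nstar T (a k + j * (r k / m)) / XX T := by
    rw [Filter.eventually_all_finset]
    intro j hj
    refine hyp k _ ?_ e1 he10
    have hj1 : (j : ℝ) ≤ m := by exact_mod_cast Nat.lt_succ_iff.1 (Finset.mem_range.1 hj)
    have h1 : (0 : ℝ) ≤ j * (r k / m) := by positivity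
    have h2 : (j : ℝ) * (r k / m) ≤ r k := by
      calc (j : ℝ) * (r k / m) ≤ m * (r k / m) := by gcongr
        _ = r k := by field_simp
    exact ⟨by linarith, by linarith⟩
  have ev : ∀ᶠ T : ℝ in atTop, 2 * Real.pi * (a k + r k) / Real.log T < d := by
    have h1 : Tendsto (fun T : ℝ => 2 * Real.pi * (a k + r k) / Real.log T) atTop (𝓝 0) :=
      Real.tendsto_log_atTop.const_div_atTop _
    exact h1.eventually (gt_mem_nhds hd0)
  have hN := (Metric.tendsto_nhds.1 (N_lim.mono_left hl)) ε hε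
  filter_upwards [hpt, hl ev, hl (eventually_ge_atTop T1), hN] with T g1 g2 g3 g4
  have hT : 1 < T := by linarith
  have hX := XX_pos hT
  have hlow : ∀ x ∈ Set.Icc (a k) (a k + r k),
      -(C * Real.exp (-(δ * r k)) + 2 * e1) ≤ (Nstar T x : ℝ) / XX T - GG x := by
    intro x hx
    obtain ⟨q, hq⟩ : ∃ q, q = r k / m := ⟨_, rfl⟩
    have hq0 : 0 < q := by rw [hq]; positivity
    obtain ⟨j, hj⟩ : ∃ j, j = ⌊(x - a k) / q⌋₊ := ⟨_, rfl⟩
    have hx0 : 0 ≤ (x - a k) / q := div_nonneg (by linarith [hx.1]) hq0.le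
    have f1 : (j : ℝ) ≤ (x - a k) / q := by rw [hj]; exact Nat.floor_le hx0
    have f2 : (x - a k) / q < (j : ℝ) + 1 := by rw [hj]; exact Nat.lt_floor_add_one _
    rw [le_div_iff₀ hq0] at f1
    rw [div_lt_iff₀ hq0] at f2
    have hjm : j ∈ Finset.range (m + 1) := by
      rw [Finset.mem_range, Nat.lt_succ_iff]
      have h1 : (j : ℝ) * q ≤ m * q := by
        have : (m : ℝ) * q = r k := by rw [hq]; field_simp
        rw [this]
        linarith [hx.2]
      have h2 : (j : ℝ) ≤ m := le_of_mul_le_mul_right h1 hq0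
      exact_mod_cast h2
    have h1 := g1 j hjm
    rw [← hq] at h1
    have h2 : (Nstar T (a k + j * q) : ℝ) ≤ Nstar T x := by
      refine Nstar_mono hT _ _ (by positivity) (by linarith) d hd ?_
      refine lt_of_le_of_lt ?_ g2
      have hL0 := Real.log_pos hT
      gcongr
      exact hx.2
    have h3 := div_le_div_of_nonneg_right h2 hX.le
    have h4 := GG_lip (show a k + j * q ≤ x by linarith)
    have h5 : x - (a k + j * q) ≤ e1 := by
      have : q ≤ e1 := by rw [hq]; exact hstep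
      linarith
    linarith
  have g5 := (abs_le.1 (hm T g3)).2
  have eX : T * Real.log T / (2 * Real.pi) = XX T := rfl
  rw [eX, add_sub_cancel_left] at g5
  have hint : IntervalIntegrable (fun x => (Nstar T x : ℝ) / XX T - GG x) volume (a k)
      (a k + r k) := by
    refine IntervalIntegrable.sub (IntervalIntegrable.div_const ?_ _)
      (gp_cont.intervalIntegrable _ _)
    apply MonotoneOn.intervalIntegrable
    rw [Set.uIcc_of_le (by linarith)]
    intro x hx y hy hxy
    refine Nstar_mono hT _ _ (by linarith [hx.1]) hxy d hd ?_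
    refine lt_of_le_of_lt ?_ g2
    have hL0 := Real.log_pos hT
    gcongr
    exact hy.2
  have g6 : r k * (-(C * Real.exp (-(δ * r k)) + 2 * e1)) ≤
      ∫ x in (a k)..(a k + r k), ((Nstar T x : ℝ) / XX T - GG x) := by
    have := intervalIntegral.integral_mono_on (show a k ≤ a k + r k by linarith)
      (intervalIntegrable_const : IntervalIntegrable
        (fun _ => (-(C * Real.exp (-(δ * r k)) + 2 * e1))) volume (a k) (a k + r k)) hint hlow
    rw [intervalIntegral.integral_const, add_sub_cancel_left, smul_eq_mul] at this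
    exact this
  have g7 : (NN riemannZeta 0 T : ℝ) / XX T ≤ (Neq T : ℝ) / XX T := by
    apply div_le_div_of_nonneg_right _ hX.le
    have h1 := bad_le T
    have h2 : (0 : ℝ) ≤ Nbad T := Nat.cast_nonneg _
    linarith
  rw [Real.dist_eq, abs_lt] at g4
  rw [abs_le]
  constructor
  · linarith [g4.1]
  · have g8 : r k / 2 * ((Neq T : ℝ) / XX T - 1) ≤ C1 + r k * (ε / 16 + 2 * (ε / 16)) := by
      have : r k * (C * Real.exp (-(δ * r k))) ≤ r k * (ε / 16) := by gcongr
      rw [he1] at g6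
      nlinarith
    have g9 : C1 ≤ r k * (ε / 8) := by
      rw [div_le_iff₀ hε] at hk1
      linarith
    have g10 : r k / 2 * ((Neq T : ℝ) / XX T - 1) ≤ r k / 2 * ε := by nlinarith
    exact le_of_mul_le_mul_left g10 (by positivity)

/-- **the criterion** -/
theorem crit {l : Filter ℝ} (hl : l ≤ atTop) {C δ : ℝ} (hC : 0 ≤ C) (hδ : 0 < δ)
    {a r : ℕ → ℝ} (hr : ∀ k, 0 < r k) (hra : ∀ k, r k ≤ a k)
    (har : ∀ k, a k + r k ≤ a (k + 1)) (hns : ¬ Summable fun k => (r k / a k) ^ 2)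
    (hyp : ∀ k, ∀ x ∈ Set.Icc (a k) (a k + r k), ∀ ε : ℝ, 0 < ε → ∀ᶠ T in l,
      GG x - C * Real.exp (-(δ * r k)) - ε ≤ Nstar T x / XX T) {x : ℝ} (hx : 0 < x) :
    Tendsto (fun T => (Nstar T x : ℝ) / XX T) l (𝓝 (GG x)) := by
  have heq := eq_of_windows hl hC hδ hr hra har hns hyp
  have hbad : Tendsto (fun T => (Nbad T : ℝ) / XX T) l (𝓝 0) := by
    have h1 := heq.sub (N_lim.mono_left hl)
    rw [sub_self] at h1
    refine squeeze_zero' ?_ ?_ h1
    · filter_upwards [hl (eventually_gt_atTop 1)] with T hT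
      have := XX_pos hT
      positivity
    · filter_upwards [hl (eventually_gt_atTop 1)] with T hT
      have hX := XX_pos hT
      rw [← sub_div]
      exact div_le_div_of_nonneg_right (bad_le T) hX.le
  have key : Tendsto (fun T => Ap T x) l (𝓝 (AG x)) := by
    rw [tendsto_iff_ultrafilter]
    intro g hg
    have hgt : (g : Filter ℝ) ≤ atTop := hg.trans hl
    obtain ⟨A', C0, hA', hneg, hb, hlim, hm⟩ := exists_lim g hgt (hbad.mono_left hg)
    have h1 : A' x = AG x := by
      refine limit_eq (κ := 1 / 2) (C := 2 * C) (δ := δ) (by norm_num) hA' hneg hb hm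
        (by positivity) hδ hr hra har hns (fun k y hy => ?_) hx
      have hy0 : 0 ≤ y := ((hr k).le.trans (hra k)).trans hy.1
      refine le_of_forall_pos_le_add fun ε hε => ?_
      have k1 : ∀ᶠ T in (g : Filter ℝ), AG y - 2 * C * Real.exp (-(δ * r k)) - ε ≤ Ap T y := by
        have k2 := hg ((tendsto_order.1 heq).1 (1 - ε / 2) (by linarith))
        filter_upwards [hg (hyp k y hy (ε / 4) (by positivity)), k2, hgt (PF_Nstar hy0),
          hgt (eventually_gt_atTop 1)] with T m1 m2 m3 m4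
        have hX := XX_pos m4
        have e1 : Ap T y = (Neq T : ℝ) / XX T + 2 * ((Nstar T y : ℝ) / XX T) := by
          unfold Ap
          rw [m3]
          ring
        have e2 : AG y = 1 + 2 * GG y := by
          unfold AG
          rw [if_neg (not_lt.2 hy0), GG_gp]
        rw [e1, e2]
        linarith
      have k3 := ge_of_tendsto (hlim y) k1
      linarith
    rw [← h1]
    exact hlim x
  have h2 := (key.sub heq).div_const 2
  have e : (AG x - 1) / 2 = GG x := by
    unfold AG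
    rw [if_neg (not_lt.2 hx.le), GG_gp]
    ring
  rw [e] at h2
  refine h2.congr' ?_
  filter_upwards [hl (PF_Nstar hx.le), hl (eventually_gt_atTop 1)] with T hT hT1
  have hX := XX_pos hT1
  unfold Ap
  rw [hT]
  field_simp
  ring

end Pool.Agent.NH11.SW
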