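import Pool.Agent.NH11.SW.Blk

set_option autoImplicit false

/-! # All the zeros -/

open MeasureTheory Filter Topology Real Set

namespace Pool.Agent.NH11.SW

open Pool.Agent.Y744
open Pool.Agent.NH11.PV (mz mz_nonneg Zt Zb XX XX_pos N_lim Nbad Nbad_eq bad mem_Zt mem_Zb tent
  tent_nonneg)
open H370 (NN mult Zf)

variable {κ : ℝ} {K : ℝ → ℝ}

/-- the cross pairs -/
noncomputable def CR (U Λ y : ℝ) : ℝ :=
  PF (Zt (2 * U)) Λ y - PF (Zt U) Λ y - PF (Zb U (2 * U)) Λ y

lemma CR_eq {U : ℝ} (hU : 1 ≤ U) (Λ y : ℝ) : CR U Λ y = 2 * ∑ s ∈ Zt U, ∑ s' ∈ Zb U (2 * U),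
    mz s * mz s' * (if |(s.im - s'.im) * Λ / (2 * π)| ≤ y then 1 else 0) := by
  have h1 := PV.split_pairs (PV.Zt_split (V := U) (T := 2 * U) (by linarith) (by linarith))
    (PV.Zt_disj (by linarith)) (fun s s' : ℂ => mz s * mz s' *
      (if |(s.im - s'.im) * Λ / (2 * π)| ≤ y then 1 else 0))
    (fun s s' => by
      show mz s * mz s' * (if |(s.im - s'.im) * Λ / (2 * π)| ≤ y then 1 else 0) =
        mz s' * mz s * (if |(s'.im - s.im) * Λ / (2 * π)| ≤ y then 1 else 0)
      have e : (s'.im - s.im) * Λ / (2 * π) = -((s.im - s'.im) * Λ / (2 * π)) := by ring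
      rw [e, abs_neg, mul_comm (mz s)])
  unfold CR PF
  rw [h1]
  ring

lemma CR_nonneg {U : ℝ} (hU : 1 ≤ U) (Λ y : ℝ) : 0 ≤ CR U Λ y := by
  rw [CR_eq hU]
  exact mul_nonneg (by norm_num) (Finset.sum_nonneg fun s _ => Finset.sum_nonneg fun s' _ =>
    term_nonneg _ _ _)

lemma CR_le (U Λ y : ℝ) : CR U Λ y ≤ PF (Zt (2 * U)) Λ y := by
  unfold CR
  have := PF_nonneg (Zt U) Λ y
  have := PF_nonneg (Zb U (2 * U)) Λ y
  linarith

lemma CR_le_near {U Λ y : ℝ} (hy : 0 ≤ y) (hΛ : 0 < Λ) (h : 2 * π * (y + 1) ≤ Λ) (hU : 3 ≤ U) :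
    CR U Λ y ≤ 2 * ((y + 1) * (NN riemannZeta (U - 1) (U + 1) : ℝ) ^ 2) := by
  rw [CR_eq (by linarith)]
  refine mul_le_mul_of_nonneg_left (le_trans ?_ (PV.cross_bd (b := y + 1) (Λ := Λ) (by linarith)
    hΛ h hU).2) (by norm_num)
  refine Finset.sum_le_sum fun s _ => Finset.sum_le_sum fun s' _ => ?_
  refine mul_le_mul_of_nonneg_left ?_ (mul_nonneg (mz_nonneg s) (mz_nonneg s'))
  split_ifs with hd
  · unfold tent
    exact (by linarith : (1 : ℝ) ≤ y + 1 - |(s.im - s'.im) * Λ / (2 * Real.pi)|).trans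
      (le_max_right _ _)
  · exact tent_nonneg _ _

lemma Zt_mono {A B : ℝ} (h : A ≤ B) : Zt A ⊆ Zt B := by
  intro s hs
  rw [mem_Zt] at hs ⊢
  exact ⟨hs.1, hs.2.1, hs.2.2.1, hs.2.2.2.1.trans h, hs.2.2.2.2⟩

lemma XX_mono {A B : ℝ} (hA : 1 < A) (h : A ≤ B) : XX A ≤ XX B := by
  unfold XX
  have h1 : Real.log A ≤ Real.log B := Real.log_le_log (by linarith) h
  have h2 : 0 ≤ Real.log A := Real.log_nonneg hA.le
  have : 0 ≤ B := by linarith
  gcongr

lemma PF_meas (S : Finset ℂ) (Λ : ℝ) : Measurable (PF S Λ) := (PF_mono S Λ).measurable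

lemma CR_ww_int (hK : TK κ K) (s U Λ : ℝ) : Integrable fun y => CR U Λ y * ww K s y := by
  have h := ((PF_ww_int hK s (Zt (2 * U)) Λ).sub (PF_ww_int hK s (Zt U) Λ)).sub
    (PF_ww_int hK s (Zb U (2 * U)) Λ)
  refine h.congr (Eventually.of_forall fun y => ?_)
  show PF (Zt (2 * U)) Λ y * ww K s y - PF (Zt U) Λ y * ww K s y -
    PF (Zb U (2 * U)) Λ y * ww K s y = _
  unfold CR
  ring

lemma PF_bound' : ∃ C0 T0 : ℝ, 0 < C0 ∧ 10 ≤ T0 ∧ ∀ T : ℝ, T0 ≤ T → ∀ y : ℝ,
    PF (Zt T) (Real.log T) y ≤ C0 * (1 + |y|) * XX T := by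
  obtain ⟨C0, T0, hC0, hT0, h⟩ := PF_bound
  refine ⟨C0, T0, hC0, hT0, fun T hT y => ?_⟩
  rcases le_or_gt 0 y with hy | hy
  · rw [abs_of_nonneg hy]
    exact h T hT y hy
  · rw [PF_neg _ _ hy]
    have := XX_pos (show (1 : ℝ) < T by linarith)
    positivity

/-- the cross pairs are negligible -/
lemma CR_lim (hK : TK κ K) (s : ℝ) {c : ℝ} (hc : 0 < c) (hc1 : 2 * c ≤ 1) :
    Tendsto (fun T => (∫ y, CR (c * T) (Real.log T) y * ww K s y) / XX T) atTop (𝓝 0) := by
  obtain ⟨C0, T0, hC0, hT0, hb⟩ := PF_bound'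
  have h2 : Tendsto (fun T : ℝ => c * T) atTop atTop := tendsto_id.const_mul_atTop hc
  have h1 : Tendsto (fun T => ∫ y, CR (c * T) (Real.log T) y / XX T * ww K s y) atTop
      (𝓝 (∫ y : ℝ, (0 : ℝ))) := by
    apply tendsto_integral_filter_of_dominated_convergence
      (fun y => C0 * ((1 + |y|) * |ww K s y|))
    · refine Eventually.of_forall fun T => ?_
      have := (CR_ww_int hK s (c * T) (Real.log T)).aestronglyMeasurable.const_mul (XX T)⁻¹
      refine this.congr (Eventually.of_forall fun y => ?_)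
      show (XX T)⁻¹ * (CR (c * T) (Real.log T) y * ww K s y) =
        CR (c * T) (Real.log T) y / XX T * ww K s y
      ring
    · filter_upwards [eventually_ge_atTop T0, h2.eventually_ge_atTop 1] with T hT hT2
      refine Eventually.of_forall fun y => ?_
      have hX := XX_pos (show (1 : ℝ) < T by linarith)
      have g1 := CR_nonneg hT2 (Real.log T) y
      have g2 := (CR_le (c * T) (Real.log T) y).trans (PF_subset (Zt_mono (by nlinarith :
        2 * (c * T) ≤ T)) (Real.log T) y)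
      have g3 := hb T hT y
      rw [norm_mul, Real.norm_eq_abs, Real.norm_eq_abs, abs_of_nonneg (div_nonneg g1 hX.le)]
      have g4 : CR (c * T) (Real.log T) y / XX T ≤ C0 * (1 + |y|) := by
        rw [div_le_iff₀ hX]
        linarith
      calc CR (c * T) (Real.log T) y / XX T * |ww K s y| ≤ C0 * (1 + |y|) * |ww K s y| := by
            gcongr
        _ = _ := by ring
    · exact (lin_ww_int hK s).const_mul _
    · refine Eventually.of_forall fun y => ?_
      have h3 : Tendsto (fun T => CR (c * T) (Real.log T) y / XX T) atTop (𝓝 0) := by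
        rcases lt_or_ge y 0 with hy | hy
        · have : ∀ T, CR (c * T) (Real.log T) y / XX T = 0 := by
            intro T
            unfold CR
            rw [PF_neg _ _ hy, PF_neg _ _ hy, PF_neg _ _ hy]
            simp
          simp_rw [this]
          exact tendsto_const_nhds
        · obtain ⟨V1, hV1, hn⟩ := PV.near_small (y + 1) (by linarith)
          have h4 : Tendsto (fun T : ℝ => c * T / XX T) atTop (𝓝 0) := by
            have h5 : Tendsto (fun T : ℝ => c * (2 * π) / Real.log T) atTop (𝓝 0) :=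
              Real.tendsto_log_atTop.const_div_atTop _
            refine h5.congr' ?_
            filter_upwards [eventually_gt_atTop 1] with T hT
            have hl := Real.log_pos hT
            have hpi := Real.pi_pos
            unfold XX
            field_simp
          refine squeeze_zero' ?_ ?_ h4
          · filter_upwards [eventually_gt_atTop 1, h2.eventually_ge_atTop 1] with T hT hT2
            exact div_nonneg (CR_nonneg hT2 _ _) (XX_pos hT).le
          · filter_upwards [eventually_gt_atTop 1, h2.eventually_ge_atTop (max V1 3),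
              Real.tendsto_log_atTop.eventually_ge_atTop (2 * π * (y + 1))] with T hT hT2 hT3
            have h5 := CR_le_near (U := c * T) hy (Real.log_pos hT) hT3
              ((le_max_right _ _).trans hT2)
            have h6 := hn (c * T) ((le_max_left _ _).trans hT2)
            exact div_le_div_of_nonneg_right (h5.trans h6) (XX_pos hT).le
      have h4 := h3.mul_const (ww K s y)
      rw [zero_mul] at h4
      exact h4
  rw [integral_zero] at h1
  refine h1.congr fun T => ?_
  rw [div_eq_mul_inv, ← integral_mul_const]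
  congr 1
  funext y
  ring

/-- the change of scale -/
lemma scale_lim (hK : TK κ K) (s : ℝ) {c : ℝ} (hc : 0 < c) (hc1 : 2 * c ≤ 1) :
    Tendsto (fun T => (∫ y, PF (Zb (c * T) (2 * (c * T))) (Real.log T) y * ww K s y) / XX T -
      (∫ y, PF (Zb (c * T) (2 * (c * T))) (Real.log (c * T)) y * ww K s y) / XX T)
      atTop (𝓝 0) := by
  obtain ⟨C0, T0, hC0, hT0, hb⟩ := PF_bound'
  have h2 : Tendsto (fun T : ℝ => c * T) atTop atTop := tendsto_id.const_mul_atTop hc
  have h1 := (dil_err hK s (log_ratio hc)).const_mul (2 * C0)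
  rw [mul_zero] at h1
  apply squeeze_zero_norm' _ h1
  filter_upwards [eventually_ge_atTop T0, h2.eventually_ge_atTop T0,
    h2.eventually_ge_atTop 2, (tendsto_order.1 (log_ratio hc)).1 (1 / 2) (by norm_num)]
    with T g1 g2 g3 g4
  have hX := XX_pos (show (1 : ℝ) < T by linarith)
  have hlT : 0 < Real.log T := Real.log_pos (by linarith)
  have hlc : 0 < Real.log (c * T) := Real.log_pos (by linarith)
  obtain ⟨q, hq⟩ : ∃ q, q = Real.log (c * T) / Real.log T := ⟨_, rfl⟩
  have hq0 : 0 < q := by rw [hq]; positivity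
  rw [← hq] at g4 ⊢
  obtain ⟨S, hS⟩ : ∃ S, S = Zb (c * T) (2 * (c * T)) := ⟨_, rfl⟩
  have hSs : S ⊆ Zt (2 * (c * T)) := by
    rw [hS, PV.Zt_split (V := c * T) (T := 2 * (c * T)) (by linarith) (by linarith)]
    exact Finset.subset_union_right
  rw [← hS]
  have e1 : (∫ y, PF S (Real.log T) y * ww K s y) =
      ∫ z, PF S (Real.log (c * T)) z * (q⁻¹ * ww K s (z / q)) := by
    obtain ⟨g, hg⟩ : ∃ g : ℝ → ℝ, ∀ z, g z = PF S (Real.log (c * T)) z * ww K s (z / q) :=
      ⟨_, fun _ => rfl⟩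
    have h3 : ∀ y, PF S (Real.log T) y * ww K s y = g (y * q) := by
      intro y
      rw [hg, mul_div_cancel_right₀ _ hq0.ne', PF_scale S hlT hlc y, hq]
    simp_rw [h3]
    rw [Measure.integral_comp_mul_right, smul_eq_mul, abs_of_pos (inv_pos.2 hq0),
      ← integral_const_mul]
    congr 1
    funext z
    rw [hg]
    ring
  have hint1 : Integrable fun z => PF S (Real.log (c * T)) z * (q⁻¹ * ww K s (z / q)) := by
    have h3 : Integrable (fun z => (fun y => PF S (Real.log T) y * ww K s y) (z * q⁻¹)) :=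
      (integrable_comp_mul_right_iff _ (inv_ne_zero hq0.ne')).2 (PF_ww_int hK s S (Real.log T))
    refine (h3.const_mul q⁻¹).congr (Eventually.of_forall fun z => ?_)
    show q⁻¹ * (PF S (Real.log T) (z * q⁻¹) * ww K s (z * q⁻¹)) = _
    rw [PF_scale S hlT hlc (z * q⁻¹), ← hq, mul_assoc z, inv_mul_cancel₀ hq0.ne', mul_one,
      ← div_eq_mul_inv]
    ring
  rw [e1, ← sub_div, ← integral_sub hint1 (PF_ww_int hK s S _), Real.norm_eq_abs, abs_div,
    abs_of_pos hX, div_le_iff₀ hX]
  have hbd : ∀ z, PF S (Real.log (c * T)) z ≤ 2 * C0 * (1 + |z|) * XX T := by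
    intro z
    rcases lt_or_ge z 0 with hz | hz
    · rw [PF_neg _ _ hz]
      positivity
    · have hl2 : 0 < Real.log (2 * (c * T)) := Real.log_pos (by linarith)
      have k1 := PF_subset hSs (Real.log (c * T)) z
      rw [PF_scale (Zt (2 * (c * T))) hlc hl2 z] at k1
      have k2 := hb (2 * (c * T)) (by linarith) (z * (Real.log (2 * (c * T)) / Real.log (c * T)))
      have k3 : Real.log (2 * (c * T)) / Real.log (c * T) ≤ 2 := by
        rw [div_le_iff₀ hlc, Real.log_mul (by norm_num) (by linarith)]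
        have : Real.log 2 ≤ Real.log (c * T) := Real.log_le_log (by norm_num) g3
        linarith
      have k4 : 0 ≤ Real.log (2 * (c * T)) / Real.log (c * T) := by positivity
      have k5 : XX (2 * (c * T)) ≤ XX T := XX_mono (by linarith) (by nlinarith)
      have k6 : |z * (Real.log (2 * (c * T)) / Real.log (c * T))| ≤ 2 * |z| := by
        rw [abs_mul, abs_of_nonneg k4, mul_comm]
        gcongr
      have k7 : 0 < XX (2 * (c * T)) := XX_pos (by linarith)
      calc PF S (Real.log (c * T)) z ≤ _ := k1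
        _ ≤ _ := k2
        _ ≤ C0 * (1 + 2 * |z|) * XX T := by gcongr
        _ ≤ 2 * C0 * (1 + |z|) * XX T := by
            have : 0 ≤ C0 * XX T := by positivity
            nlinarith [abs_nonneg z]
  have hD : Integrable fun z => (1 + |z|) * |q⁻¹ * ww K s (z / q) - ww K s z| := by
    obtain ⟨D, hD0, hD⟩ := ww_decay hK
    have hwc := ww_cont hK s
    have i1 := (lin_ww_int hK s)
    have i2 : Integrable fun z => (1 + |z|) * |q⁻¹ * ww K s (z / q)| := by
      have h3 : Integrable (fun z => (fun y => (1 + |y|) * |ww K s y|) (z * q⁻¹)) :=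
        (integrable_comp_mul_right_iff _ (inv_ne_zero hq0.ne')).2 i1
      refine ((h3.const_mul (q⁻¹ * (1 + q)))).mono'
        (by fun_prop : Continuous fun z => (1 + |z|) *
          |q⁻¹ * ww K s (z / q)|).aestronglyMeasurable (Eventually.of_forall fun z => ?_)
      rw [Real.norm_eq_abs, abs_of_nonneg (by positivity), abs_mul, abs_of_pos (inv_pos.2 hq0)]
      show (1 + |z|) * (q⁻¹ * |ww K s (z / q)|) ≤
        q⁻¹ * (1 + q) * ((1 + |z * q⁻¹|) * |ww K s (z * q⁻¹)|)
      rw [← div_eq_mul_inv, abs_div, abs_of_pos hq0]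
      have h4 : 1 + |z| ≤ (1 + q) * (1 + |z| / q) := by
        have h5 : (1 + q) * (1 + |z| / q) = 1 + |z| / q + q + |z| := by field_simp; ring
        rw [h5]
        have : 0 ≤ |z| / q := by positivity
        linarith
      calc (1 + |z|) * (q⁻¹ * |ww K s (z / q)|) ≤
            ((1 + q) * (1 + |z| / q)) * (q⁻¹ * |ww K s (z / q)|) := by gcongr
        _ = _ := by ring
    refine (i2.add i1).mono' (by fun_prop : Continuous fun z => (1 + |z|) *
      |q⁻¹ * ww K s (z / q) - ww K s z|).aestronglyMeasurable (Eventually.of_forall fun z => ?_)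
    rw [Real.norm_eq_abs, abs_of_nonneg (by positivity)]
    show _ ≤ (1 + |z|) * |q⁻¹ * ww K s (z / q)| + (1 + |z|) * |ww K s z|
    rw [← mul_add]
    gcongr
    exact abs_sub _ _
  calc |∫ z, (PF S (Real.log (c * T)) z * (q⁻¹ * ww K s (z / q)) -
        PF S (Real.log (c * T)) z * ww K s z)| ≤
        ∫ z, |PF S (Real.log (c * T)) z * (q⁻¹ * ww K s (z / q)) -
        PF S (Real.log (c * T)) z * ww K s z| := abs_integral_le_integral_abs
    _ ≤ ∫ z, 2 * C0 * XX T * ((1 + |z|) * |q⁻¹ * ww K s (z / q) - ww K s z|) := by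
        refine integral_mono (hint1.sub (PF_ww_int hK s S _)).abs (hD.const_mul _) fun z => ?_
        show |PF S (Real.log (c * T)) z * (q⁻¹ * ww K s (z / q)) -
          PF S (Real.log (c * T)) z * ww K s z| ≤ _
        rw [← mul_sub, abs_mul, abs_of_nonneg (PF_nonneg _ _ _)]
        calc PF S (Real.log (c * T)) z * |q⁻¹ * ww K s (z / q) - ww K s z| ≤
            2 * C0 * (1 + |z|) * XX T * |q⁻¹ * ww K s (z / q) - ww K s z| := by
              gcongr
              exact hbd z
          _ = _ := by ring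
    _ = _ := by
        rw [integral_const_mul]
        ring

/-- the normalised integral -/
noncomputable def JJ (K : ℝ → ℝ) (s c T : ℝ) : ℝ :=
  (∫ y, PF (Zt (c * T)) (Real.log T) y * ww K s y) / XX T

lemma JJ_step (hK : TK κ K) (hκ : 0 ≤ κ) {s : ℝ} (hs : κ + |s| ≤ 1 / 2) {l : Filter ℝ}
    (hl : l ≤ atTop) (hbad : Tendsto (fun T => (Nbad T : ℝ) / XX T) l (𝓝 0)) {c : ℝ} (hc : 0 < c)
    (hc1 : 2 * c ≤ 1) :
    Tendsto (fun T => JJ K s (2 * c) T - JJ K s c T) l (𝓝 (c * II K s)) := by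
  have h1 := ((blk_lim hK hκ hs hl hbad hc hc1).add ((scale_lim hK s hc hc1).mono_left hl)).add
    ((CR_lim hK s hc hc1).mono_left hl)
  rw [add_zero, add_zero] at h1
  refine h1.congr fun T => ?_
  unfold JJ
  have i1 := PF_ww_int hK s (Zt (2 * (c * T))) (Real.log T)
  have i2 := PF_ww_int hK s (Zt (c * T)) (Real.log T)
  have i3 := PF_ww_int hK s (Zb (c * T) (2 * (c * T))) (Real.log T)
  have e : (∫ y, CR (c * T) (Real.log T) y * ww K s y) =
      (∫ y, PF (Zt (2 * (c * T))) (Real.log T) y * ww K s y) -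
      (∫ y, PF (Zt (c * T)) (Real.log T) y * ww K s y) -
      ∫ y, PF (Zb (c * T) (2 * (c * T))) (Real.log T) y * ww K s y := by
    have e1 : ∀ y, CR (c * T) (Real.log T) y * ww K s y =
        (PF (Zt (2 * (c * T))) (Real.log T) y * ww K s y -
        PF (Zt (c * T)) (Real.log T) y * ww K s y) -
        PF (Zb (c * T) (2 * (c * T))) (Real.log T) y * ww K s y := by
      intro y
      unfold CR
      ring
    have i12 : Integrable (fun y => PF (Zt (2 * (c * T))) (Real.log T) y * ww K s y -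
        PF (Zt (c * T)) (Real.log T) y * ww K s y) := i1.sub i2
    simp_rw [e1]
    rw [integral_sub i12 i3, integral_sub i1 i2]
  rw [e, mul_assoc 2 c T]
  ring

lemma JJ_tail (hK : TK κ K) (s : ℝ) : ∃ M : ℝ, 0 ≤ M ∧ ∀ c : ℝ, 0 < c → c ≤ 1 →
    ∀ᶠ T in atTop, |JJ K s c T| ≤ M * c := by
  obtain ⟨C0, T0, hC0, hT0, hb⟩ := PF_bound'
  obtain ⟨I, hI⟩ : ∃ I, I = ∫ y, (1 + |y|) * |ww K s y| := ⟨_, rfl⟩
  have hI0 : 0 ≤ I := by
    rw [hI]
    exact integral_nonneg fun y => by positivity
  refine ⟨2 * C0 * I, by positivity, fun c hc hc1 => ?_⟩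
  have h2 : Tendsto (fun T : ℝ => c * T) atTop atTop := tendsto_id.const_mul_atTop hc
  filter_upwards [eventually_ge_atTop T0, h2.eventually_ge_atTop T0,
    (tendsto_order.1 (XX_ratio hc)).2 (2 * c) (by linarith)] with T g1 g2 g3
  have hX := XX_pos (show (1 : ℝ) < T by linarith)
  have hXc := XX_pos (show (1 : ℝ) < c * T by linarith)
  have hbd : ∀ y, PF (Zt (c * T)) (Real.log T) y ≤ C0 * (1 + |y|) * XX (c * T) := by
    intro y
    rcases lt_or_ge y 0 with hy | hy
    · rw [PF_neg _ _ hy]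
      positivity
    · refine (PF_anti _ (Real.log_pos (by linarith : 1 < c * T))
        (Real.log_le_log (by linarith) (by nlinarith)) hy).trans (hb (c * T) g2 y)
  unfold JJ
  rw [abs_div, abs_of_pos hX, div_le_iff₀ hX]
  calc |∫ y, PF (Zt (c * T)) (Real.log T) y * ww K s y| ≤
        ∫ y, |PF (Zt (c * T)) (Real.log T) y * ww K s y| := abs_integral_le_integral_abs
    _ ≤ ∫ y, C0 * XX (c * T) * ((1 + |y|) * |ww K s y|) := by
        refine integral_mono (PF_ww_int hK s _ _).abs ((lin_ww_int hK s).const_mul _) fun y => ?_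
        show |PF (Zt (c * T)) (Real.log T) y * ww K s y| ≤ _
        rw [abs_mul, abs_of_nonneg (PF_nonneg _ _ _)]
        calc PF (Zt (c * T)) (Real.log T) y * |ww K s y| ≤
            C0 * (1 + |y|) * XX (c * T) * |ww K s y| := by
              gcongr
              exact hbd y
          _ = _ := by ring
    _ = C0 * I * XX (c * T) := by
        rw [integral_const_mul, ← hI]
        ring
    _ ≤ C0 * I * (2 * c * XX T) := by
        rw [div_lt_iff₀ hX] at g3
        gcongr
    _ = _ := by ring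

/-- the test functions against all the zeros -/
theorem JJ_lim (hK : TK κ K) (hκ : 0 ≤ κ) {s : ℝ} (hs : κ + |s| ≤ 1 / 2) {l : Filter ℝ}
    (hl : l ≤ atTop) (hbad : Tendsto (fun T => (Nbad T : ℝ) / XX T) l (𝓝 0)) :
    Tendsto (fun T => (∫ y, PF (Zt T) (Real.log T) y * ww K s y) / XX T) l (𝓝 (II K s)) := by
  obtain ⟨M, hM0, hM⟩ := JJ_tail hK s
  have hn : ∀ n : ℕ, Tendsto (fun T => JJ K s 1 T - JJ K s ((1 / 2) ^ n) T) l
      (𝓝 ((1 - (1 / 2) ^ n) * II K s)) := by
    intro n
    induction n with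
    | zero =>
      simp only [pow_zero, sub_self, zero_mul]
      exact tendsto_const_nhds
    | succ n ih =>
      have hp : (0 : ℝ) < (1 / 2) ^ (n + 1) := by positivity
      have e1 : 2 * ((1 : ℝ) / 2) ^ (n + 1) = (1 / 2) ^ n := by rw [pow_succ]; ring
      have h1 := JJ_step hK hκ hs hl hbad hp (by
        rw [e1]
        exact pow_le_one₀ (by norm_num) (by norm_num))
      rw [e1] at h1
      have h2 := ih.add h1
      have e2 : (1 - ((1 : ℝ) / 2) ^ n) * II K s + (1 / 2) ^ (n + 1) * II K s =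
          (1 - (1 / 2) ^ (n + 1)) * II K s := by rw [pow_succ]; ring
      rw [e2] at h2
      refine h2.congr fun T => ?_
      ring
  have e : ∀ T, (∫ y, PF (Zt T) (Real.log T) y * ww K s y) / XX T = JJ K s 1 T := by
    intro T
    unfold JJ
    rw [one_mul]
  simp_rw [e]
  refine tendsto_of_bound fun ε hε => ?_
  obtain ⟨n, hn1⟩ : ∃ n : ℕ, ((1 : ℝ) / 2) ^ n < ε / (2 * (M + |II K s| + 1)) :=
    exists_pow_lt_of_lt_one (by positivity) (by norm_num)
  have hq : (0 : ℝ) < (1 / 2) ^ n := by positivity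
  have h3 := Metric.tendsto_nhds.1 (hn n) (ε / 2) (by positivity)
  filter_upwards [h3, hl (hM _ hq (pow_le_one₀ (by norm_num) (by norm_num)))] with T k1 k2
  rw [Real.dist_eq] at k1
  rw [lt_div_iff₀ (by positivity)] at hn1
  have k3 : |(((1 : ℝ) / 2) ^ n) * II K s| = (1 / 2) ^ n * |II K s| := by
    rw [abs_mul, abs_of_pos hq]
  have k4 : JJ K s 1 T - II K s = (JJ K s 1 T - JJ K s ((1 / 2) ^ n) T -
      (1 - (1 / 2) ^ n) * II K s) + JJ K s ((1 / 2) ^ n) T - (1 / 2) ^ n * II K s := by ring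
  rw [k4]
  refine (abs_sub _ _).trans ?_
  refine (add_le_add_left (abs_add_le _ _) _).trans ?_
  rw [k3]
  nlinarith [abs_nonneg (II K s)]

end Pool.Agent.NH11.SW
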